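import Pool.Agent.Helper39.FT.Sel
import Mathlib.RingTheory.Polynomial.Resultant.Basic

/-!
# Definitions and statements of pieces for base fields which are function fields of curves
(not results)
-/

set_option autoImplicit false

open Polynomial IsDedekindDomain NumberField

namespace Pool.Agent.Helper39.FX

open Pool.Agent.TH954 Pool.Agent.Y791.BF Pool.Agent.Helper39.FT

section two

variable {R L : Type} [CommRing R] [CommRing L]

/-- the value at `(t, s)` of a polynomial in two variables (`s` is the value of the outer one) -/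
noncomputable def ev2 (ι : R →+* L) (t s : L) : R[X][X] →+* L :=
  eval₂RingHom (eval₂RingHom ι t) s

/-- the derivative for the inner variable -/
noncomputable def dT (A : R[X][X]) : R[X][X] := Bivariate.swap (derivative (Bivariate.swap A))

/-- the derivation `f_S ∂_T - f_T ∂_S`, which kills `f` -/
noncomputable def del (f A : R[X][X]) : R[X][X] := dT A * derivative f - derivative A * dT f

/-- change of the coefficients -/
noncomputable abbrev mp (φ : R →+* L) (A : R[X][X]) : L[X][X] := A.map (mapRingHom φ)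

/-- the norm of `V Z - U`, a polynomial in `Z` (the outer variable) over `R[T]` -/
noncomputable def chi (f U V : R[X][X]) : R[X][X] :=
  resultant (f.map (C : R[X] →+* R[X][X])) (C X * V.map (C : R[X] →+* R[X][X]) -
    U.map (C : R[X] →+* R[X][X]))

/-- the Wronskian of the coefficients of degree `0, ..., n` -/
noncomputable def wr (n : ℕ) (F : R[X][X]) : R[X] :=
  Matrix.det (Matrix.of fun i j : Fin (n + 1) => derivative^[(i : ℕ)] (F.coeff (j : ℕ)))

end two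

/-- The field `k` is the function field of an absolutely irreducible curve `f (T, S) = 0` over `K`,
Galois over `K(T)`. -/
structure Crv (K k : Type) [Field K] [Field k] where
  c : K →+* k
  T : k
  α : k
  f : K[X][X]
  monic : f.Monic
  pos : 0 < f.natDegree
  root : ev2 c T α f = 0
  gen : ∀ x : k, ∃ (A : K[X][X]) (d : K[X]), d ≠ 0 ∧ x * eval₂ c T d = ev2 c T α A
  min : ∀ A : K[X][X], ev2 c T α A = 0 → f ∣ A
  irr : Irreducible (mp (algebraMap K (AlgebraicClosure K)) f)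
  aut : Fin f.natDegree → (k →+* k)
  aut_c : ∀ j x, aut j (c x) = c x
  aut_T : ∀ j, aut j T = T
  split : f.map (eval₂RingHom c T) = ∏ j, (X - C (aut j α))

/-- a place of `k` above a place of `K` -/
def pl {K k : Type} [Field K] [Field k] (i : PlF K) (φ : k →+* i.Lv) : PlF k := ⟨i.L, i.v, φ⟩

/-! ## Pieces -/

/-- CRV -/
def S_CRV : Prop :=
  ∀ (k : Type) [Field k] [CharZero k], Algebra.EssFiniteType ℚ k →
  (∃ x : k, Transcendental ℚ x) →
  ∃ (k1 : Type) (_ : Field k1) (_ : Algebra k k1) (_ : FiniteDimensional k k1) (K : Type)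
    (_ : Field K) (_ : CharZero K), Algebra.EssFiniteType ℚ K ∧ Nonempty (Crv K k1)

/-- BN: absolutely irreducible polynomials have irreducible reductions -/
def S_BN : Prop :=
  ∀ (K : Type) [Field K] [CharZero K] (f : K[X][X]), f.Monic →
  Irreducible (mp (algebraMap K (AlgebraicClosure K)) f) →
  ∃ Z : Finset K, ∀ D : RSys K, GoodZ D Z → ∀ f' : D.B[X][X], mp D.B.subtype f' = f → f'.Monic →
    Irreducible (mp D.r f')

/-- NMR: properties of resultants -/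
def S_NMR : Prop :=
  (∀ (R R' : Type) [CommRing R] [CommRing R'] [Nontrivial R'] (φ : R →+* R') (f g : R[X]),
    f.Monic → resultant (f.map φ) (g.map φ) = φ (resultant f g)) ∧
  (∀ (R : Type) [CommRing R] [IsDomain R] (n : ℕ) (s : Fin n → R) (g : R[X]),
    resultant (∏ j, (X - C (s j))) g = ∏ j, g.eval (s j)) ∧
  (∀ (R : Type) [CommRing R] [IsDomain R] (f g h : R[X]), f.Monic →
    resultant f (g * h) = resultant f g * resultant f h) ∧
  (∀ (R : Type) [CommRing R] [IsDomain R] (f g h : R[X]), f.Monic → f ∣ g - h →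
    resultant f g = resultant f h) ∧
  (∀ (k : Type) [Field k] (f g : k[X][X]), f.Monic → Irreducible f → ¬ f ∣ g →
    resultant f g ≠ 0)

/-- EMB: embeddings given by points of the curve -/
def S_EMB : Prop :=
  ∀ (K k : Type) [Field K] [Field k] (C : Crv K k) (L : Type) [Field L] (ι : K →+* L) (t s : L),
  (∀ d : K[X], d ≠ 0 → eval₂ ι t d ≠ 0) → ev2 ι t s C.f = 0 →
  ∃ φ : k →+* L, φ.comp C.c = ι ∧ φ C.T = t ∧ φ C.α = s

/-- HEN: the lemma of Hensel -/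
def S_HEN : Prop :=
  ∀ (K : Type) [Field K] (i : PlF K) (P : (ball1 i.Lv)[X]) (s0 : ball1 i.Lv),
  ‖((P.eval s0 : ball1 i.Lv) : i.Lv)‖ < 1 → ‖(((derivative P).eval s0 : ball1 i.Lv) : i.Lv)‖ = 1 →
  ∃ s : ball1 i.Lv, P.eval s = 0 ∧ ‖(s : i.Lv) - s0‖ < 1

/-- EXP: expansions of functions on the curve -/
def S_EXP : Prop :=
  ∀ (L : Type) [NormedField L] [IsUltrametricDist L] (f A : (ball1 L)[X][X]) (t d s e : ball1 L),
  ev2 (RingHom.id _) t s f = 0 → ev2 (RingHom.id _) (t + d) (s + e) f = 0 →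
  ‖((ev2 (RingHom.id _) t s (derivative f) : ball1 L) : L)‖ = 1 → ‖(e : L)‖ < 1 →
  ‖((((ev2 (RingHom.id _) (t + d) (s + e) A - ev2 (RingHom.id _) t s A) *
      ev2 (RingHom.id _) t s (derivative f) - ev2 (RingHom.id _) t s (del f A) * d : ball1 L)) : L)‖
    ≤ ‖(d : L)‖ ^ 2

/-- INF: there are infinitely many points near a point -/
def S_INF : Prop :=
  ∀ (K k : Type) [Field K] [CharZero K] [Field k], Algebra.EssFiniteType ℚ K → ∀ (C : Crv K k)
  (i : PlF k),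
  {t : i.Lv | ∃ φ : k →+* i.Lv, φ.comp C.c = i.φ.comp C.c ∧ φ C.T = t}.Infinite

/-- WRL: choice of a multiple with a nonzero Wronskian -/
def S_WRL : Prop :=
  ∀ n : ℕ, 0 < n → ∃ M : ℕ, ∀ (p : ℕ) [Fact p.Prime], M < p → ∀ f U V : (ZMod p)[X][X],
  f.Monic → f.natDegree = n → resultant f V ≠ 0 →
  ∃ l ∈ Finset.Icc 1 M, wr n (chi f (C X * V + (l : (ZMod p)[X][X]) * U) V) ≠ 0

/-- MASN: the bound of Mason, Stothers and Voloch, with multiplicities modulo a number -/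
def S_MASN : Prop :=
  ∀ n : ℕ, 0 < n → ∃ (N1 : ℕ) (bd : ℕ → ℕ), 0 < N1 ∧ ∀ (p : ℕ) [Fact p.Prime], n + 2 ≤ p →
  ∀ F : (ZMod p)[X][X], F.natDegree ≤ n → F.coeff n ≠ 0 → wr n F ≠ 0 →
  ∀ (A : Fin (n + 2) → (ZMod p)[X]) (h : ℕ), (∀ i, A i ≠ 0) → (∀ i, (A i).natDegree ≤ h) →
  (∀ (i : Fin (n + 2)) (b : AlgebraicClosure (ZMod p)),
    (N1 : ℤ) ∣ (((F.eval ((i : ℕ) : (ZMod p)[X])).map
        (algebraMap (ZMod p) (AlgebraicClosure (ZMod p)))).rootMultiplicity b : ℤ) -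
      ((F.coeff n).map (algebraMap (ZMod p) (AlgebraicClosure (ZMod p)))).rootMultiplicity b -
      ((A i).map (algebraMap (ZMod p) (AlgebraicClosure (ZMod p)))).rootMultiplicity b) →
  ∃ (g : (ZMod p)[X]) (F1 : (ZMod p)[X][X]), g ≠ 0 ∧ F = C g * F1 ∧
    ∀ j, (F1.coeff j).natDegree ≤ bd h

/-- FIN: the values of a function are roots of a polynomial over `K[T]` -/
def S_FIN : Prop :=
  ∀ (K : Type) [Field K] [CharZero K] (n : ℕ), 0 < n → ∀ (m : ℕ) (g : ℕ → K[X]), 3 * n + 2 ≤ m →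
  (∀ S : Finset ℕ, (∀ c ∈ S, c < m) → S.card = n + 1 →
    ∀ w : ℕ → K, ∑ c ∈ S, C (w c) * g c = 0 → ∀ c ∈ S, w c = 0) →
  ∃ Ψ : K[X][X], Ψ ≠ 0 ∧ ∀ (L : Type) [Field L] (ι : K →+* L) (T : Set L), T.Infinite →
    (∀ t ∈ T, ∀ d : K[X], d ≠ 0 → eval₂ ι t d ≠ 0) →
    ∀ χ : L → L[X], (∀ t ∈ T, (χ t).Monic ∧ (χ t).natDegree ≤ n) →
    (∀ t ∈ T, ∀ t' ∈ T, ∀ c < m, ∀ c' < m, (χ t).eval (c : L) ≠ 0 → (χ t).eval (c' : L) ≠ 0 →
      (χ t').eval (c : L) ≠ 0 → (χ t').eval (c' : L) ≠ 0 →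
      (χ t).eval (c : L) * (χ t').eval (c' : L) * (eval₂ ι t (g c') * eval₂ ι t' (g c)) =
        (χ t).eval (c' : L) * (χ t').eval (c : L) * (eval₂ ι t (g c) * eval₂ ι t' (g c'))) →
    ∀ t ∈ T, (χ t).natDegree = n ∧ χ t ∣ Ψ.map (eval₂RingHom ι t)

/-- The values of `y` at the points above suitable `t` have the residues `U / V`; the norms of
`Z - U / V` have a nonzero Wronskian. -/
def GoodC {K k : Type} [Field K] [Field k] {F0 : Type} [Field F0] [Algebra k F0] (C : Crv K k)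
    (q : ∀ i : PlF k, Plc k F0 i.Lv) (D : RSys K) (y : F0) : Prop :=
  ∃ (f : D.B[X][X]) (U V : (ZMod D.p)[X][X]) (S : (ZMod D.p)[X]), mp D.B.subtype f = C.f ∧
    f.Monic ∧ S ≠ 0 ∧ resultant (mp D.r f) V ≠ 0 ∧
    wr C.f.natDegree (chi (mp D.r f) U V) ≠ 0 ∧
    ∀ m : ℕ, 0 < m → ∀ a : D.E, a ^ D.p ^ m = a → aeval a S ≠ 0 →
      (∀ b : D.E, ev2 (algebraMap (ZMod D.p) D.E) a b (mp D.r f) = 0 → b ^ D.p ^ m = b) →
      ∃ t : ball1 (D.i m).Lv, D.res m t = a ∧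
        (∃ φ : k →+* (D.i m).Lv, φ.comp C.c = (D.i m).φ ∧ φ C.T = (t : (D.i m).Lv)) ∧
        ∀ φ : k →+* (D.i m).Lv, φ.comp C.c = (D.i m).φ → φ C.T = (t : (D.i m).Lv) →
          ∃ s u : ball1 (D.i m).Lv, φ C.α = (s : (D.i m).Lv) ∧
            (q (pl (D.i m) φ)).val y (u : (D.i m).Lv) ∧
            ev2 (algebraMap (ZMod D.p) D.E) a (D.res m s) V * D.res m u =
              ev2 (algebraMap (ZMod D.p) D.E) a (D.res m s) U

/-- `A` is a class of `x` modulo `N`-th powers -/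
def ClsC {K k : Type} [Field K] [Field k] {F0 : Type} [Field F0] [Algebra k F0] (C : Crv K k)
    (N : ℕ) (A : K[X][X]) (x : F0) : Prop :=
  ev2 C.c C.T C.α A ≠ 0 ∧ ∃ g : F0, x = algebraMap k F0 (ev2 C.c C.T C.α A) * g ^ N

/-- CNG: congruences for the multiplicities of the norm. -/
def S_CNG : Prop :=
  ∀ (K k : Type) [Field K] [CharZero K] [Field k] (F0 : Type) [Field F0] [Algebra k F0]
  (C : Crv K k) (q : ∀ i : PlF k, Plc k F0 i.Lv) (D : RSys K) (y : F0) (f : D.B[X][X])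
  (U V : (ZMod D.p)[X][X]) (S : (ZMod D.p)[X]), mp D.B.subtype f = C.f → f.Monic → S ≠ 0 →
  resultant (mp D.r f) V ≠ 0 →
  (∀ m : ℕ, 0 < m → ∀ a : D.E, a ^ D.p ^ m = a → aeval a S ≠ 0 →
    (∀ b : D.E, ev2 (algebraMap (ZMod D.p) D.E) a b (mp D.r f) = 0 → b ^ D.p ^ m = b) →
    ∃ t : ball1 (D.i m).Lv, D.res m t = a ∧
      (∃ φ : k →+* (D.i m).Lv, φ.comp C.c = (D.i m).φ ∧ φ C.T = (t : (D.i m).Lv)) ∧
      ∀ φ : k →+* (D.i m).Lv, φ.comp C.c = (D.i m).φ → φ C.T = (t : (D.i m).Lv) →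
        ∃ s u : ball1 (D.i m).Lv, φ C.α = (s : (D.i m).Lv) ∧
          (q (pl (D.i m) φ)).val y (u : (D.i m).Lv) ∧
          ev2 (algebraMap (ZMod D.p) D.E) a (D.res m s) V * D.res m u =
            ev2 (algebraMap (ZMod D.p) D.E) a (D.res m s) U) →
  ∀ (c : ℕ) (N : ℕ) (A : D.B[X][X]), 0 < N → ¬ D.p ∣ N → C.f.natDegree < D.p →
  resultant (mp D.r f) (U - (c : (ZMod D.p)[X][X]) * V) ≠ 0 →
  resultant (mp D.r f) (mp D.r A) ≠ 0 →
  ClsC C (C.f.natDegree.factorial * N) (mp D.B.subtype A) (y - (c : F0)) →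
  ∀ b : D.E, (N : ℤ) ∣ (((resultant (mp D.r f) (U - (c : (ZMod D.p)[X][X]) * V)).map
        (algebraMap (ZMod D.p) D.E)).rootMultiplicity b : ℤ) -
      ((resultant (mp D.r f) V).map (algebraMap (ZMod D.p) D.E)).rootMultiplicity b -
      ((resultant (mp D.r f) (mp D.r A)).map (algebraMap (ZMod D.p) D.E)).rootMultiplicity b

/-- ALLC: a semilinear action over `k` with points at all places has a function which vanishes at
all places. -/
def S_ALLC : Prop :=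
  ∀ (K k : Type) [Field K] [CharZero K] [Field k] [CharZero k], Algebra.EssFiniteType ℚ K →
  Algebra.EssFiniteType ℚ k → ∀ (_ : Crv K k) (M : Type) [Field M] [CharZero M] [IsAlgClosed M]
    [Algebra k M] (A : SAct k M)
    (pl : ∀ i : PlF k, Plc k M (AlgebraicClosure i.Lv)),
    (∀ i, GeoPlc A (pl i)) → ∀ x : M, x ∈ A.fix → Transcendental k x →
    ∃ t : M, t ≠ 0 ∧ ∀ i, (pl i).val t 0

/-- good reductions for infinitely many systems -/
def AllGoodC {K k : Type} [Field K] [Field k] {F0 : Type} [Field F0] [Algebra k F0] (C : Crv K k)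
    (q : ∀ i : PlF k, Plc k F0 i.Lv) (y : F0) : Prop :=
  ∀ (Z : Finset K) (n0 : ℕ), ∃ D : RSys K, n0 < D.p ∧ GoodZ D Z ∧ GoodC C q D y

/-- Kummer theory in `F0` -/
def KumC {K k : Type} [Field K] [Field k] (F0 : Type) [Field F0] [Algebra k F0] (C : Crv K k) :
    Prop :=
  ∀ x : F0, x ≠ 0 → ∀ N : ℕ, 0 < N → ∃ A : K[X][X], ClsC C N A x

/-- the classes of `y - c`, `c < m`, are those of rational functions -/
def ClassC {K k : Type} [Field K] [Field k] {F0 : Type} [Field F0] [Algebra k F0] (C : Crv K k)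
    (y : F0) (m : ℕ) (A : ℕ → ℕ → K[X][X]) (G1 G2 : ℕ → K[X]) : Prop :=
  (∀ c < m, G1 c ≠ 0 ∧ G2 c ≠ 0) ∧
  (∀ c < m, ∀ N : ℕ, 0 < N → ClsC C (C.f.natDegree.factorial * N) (A c N) (y - (c : F0)) ∧
    ∃ (d : K) (h : K[X]), d ≠ 0 ∧ h ≠ 0 ∧
      resultant C.f (A c N) * G2 c * G1 c ^ (N - 1) = Polynomial.C d * h ^ N) ∧
  (∀ S : Finset ℕ, (∀ c ∈ S, c < m) → S.card = C.f.natDegree + 1 →
    ∀ w : ℕ → K, ∑ c ∈ S, Polynomial.C (w c) *
      (G1 c * ∏ c' ∈ (Finset.range m).erase c, G2 c') = 0 → ∀ c ∈ S, w c = 0)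

/-- SELN -/
def S_SELN : Prop :=
  ∀ (K k : Type) [Field K] [CharZero K] [Field k] [CharZero k], Algebra.EssFiniteType ℚ K →
  ∀ (C : Crv K k) (F0 : Type) [Field F0] [CharZero F0] [Algebra k F0]
  (q : ∀ i : PlF k, Plc k F0 i.Lv), KumC F0 C → ∀ x : F0, Transcendental k x →
  ∃ y : F0, Transcendental k y ∧ AllGoodC C q y

/-- E1 -/
def S_E1 : Prop :=
  ∀ (K k : Type) [Field K] [CharZero K] [Field k] [CharZero k], Algebra.EssFiniteType ℚ K →
  ∀ (C : Crv K k) (F0 : Type) [Field F0] [CharZero F0] [Algebra k F0]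
  (q : ∀ i : PlF k, Plc k F0 i.Lv), KumC F0 C →
  (∀ x : F0, IsAlgebraic k x → ∃ c, algebraMap k F0 c = x) →
  ∀ y : F0, Transcendental k y → AllGoodC C q y →
  ∃ (A : ℕ → ℕ → K[X][X]) (G1 G2 : ℕ → K[X]), ClassC C y (3 * C.f.natDegree + 2) A G1 G2

/-- E2 -/
def S_E2 : Prop :=
  ∀ (K k : Type) [Field K] [CharZero K] [Field k] [CharZero k], Algebra.EssFiniteType ℚ K →
  ∀ (C : Crv K k) (F0 : Type) [Field F0] [CharZero F0] [Algebra k F0]
  (q : ∀ i : PlF k, Plc k F0 i.Lv) (y : F0), Transcendental k y →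
  ∀ (A : ℕ → ℕ → K[X][X]) (G1 G2 : ℕ → K[X]), ClassC C y (3 * C.f.natDegree + 2) A G1 G2 →
  ∃ t : F0, t ≠ 0 ∧ ∀ i, (q i).val t 0

end Pool.Agent.Helper39.FX
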