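import Pool.Agent.Helper39.FT.Loc3
import Pool.Agent.Helper39.FX.Defs

/-!
# The local lemma for several points
-/

set_option autoImplicit false
set_option linter.unusedSectionVars false

open Polynomial

namespace Pool.Agent.Helper39.FX.Loc

open Pool.Agent.Y791.BF Pool.Agent.Helper39.FT.Loc

variable {L : Type} [NormedField L] [IsUltrametricDist L] {π : L} (hπ0 : π ≠ 0) (hπ1 : ‖π‖ < 1)
  (hπ : ∀ w : L, w ≠ 0 → ∃ n : ℤ, ‖w‖ = ‖π‖ ^ n)

include hπ0 hπ1 hπ in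
/-- powers with norm less than one are small -/
lemma pow_small {u c γ : L} {M : ℕ} (hc : ‖c‖ = 1) (h : u = c * γ ^ (M + 1)) (hu : ‖u‖ < 1) :
    ‖u‖ ≤ ‖π‖ ^ (M + 1) := by
  have h1 : ‖u‖ = ‖γ‖ ^ (M + 1) := by rw [h, norm_mul, hc, one_mul, norm_pow]
  have h2 : ‖γ‖ < 1 := by
    by_contra hcon
    push Not at hcon
    have := one_le_pow₀ hcon (n := M + 1)
    rw [← h1] at this
    linarith
  rw [h1]
  exact pow_le_pow_left₀ (norm_nonneg _) (disc0 hπ0 hπ1 hπ h2) _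

include hπ0 hπ1 hπ in
/-- powers with norm greater than one are large -/
lemma pow_large {u c γ : L} {M : ℕ} (hc : ‖c‖ = 1) (h : u = c * γ ^ (M + 1)) (hu : 1 < ‖u‖) :
    ‖u⁻¹‖ ≤ ‖π‖ ^ (M + 1) := by
  refine pow_small hπ0 hπ1 hπ (c := c⁻¹) (γ := γ⁻¹) (by rw [norm_inv, hc, inv_one]) ?_ ?_
  · rw [h, mul_inv, inv_pow]
  · rw [norm_inv]
    exact inv_lt_one_of_one_lt₀ hu

variable {p : ℕ} (hp : p.Prime) (hpL : ‖(p : L)‖ < 1)

include hπ0 hπ1 hπ hp hpL in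
lemma pow_pp_near {x : L} (h : ‖x - 1‖ < 1) (M : ℕ) : ‖x ^ p ^ M - 1‖ ≤ ‖π‖ ^ (M + 1) := by
  induction M with
  | zero =>
    rw [pow_zero, pow_one, zero_add, pow_one]
    exact disc0 hπ0 hπ1 hπ h
  | succ M ih =>
    have e : x ^ p ^ (M + 1) = (x ^ p ^ M) ^ p := by rw [← pow_mul, pow_succ]
    rw [e]
    exact pow_p_near hπ0 hπ1 hπ hp hpL (Nat.succ_pos M) ih

variable {E : Type} [Field E] [CharP E p] (res : ball1 L →+* E)
  (hres : ∀ y, res y = 0 ↔ ‖(y : L)‖ < 1)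

include hπ0 hπ1 hπ hp hpL hres in
/-- quotients which are powers -/
lemma ratio {u u' A A' : ball1 L} {g : L} {M : ℕ} (hu : res u ≠ 0) (hA : res A ≠ 0)
    (h1 : res u = res u') (h2 : res A = res A') (h : (u' : L) * A = u * A' * g ^ p ^ M) :
    ‖(u' : L) * A - u * A'‖ ≤ ‖π‖ ^ (M + 1) := by
  have nu := norm_one_of res hres hu
  have nA := norm_one_of res hres hA
  have nu' := norm_one_of res hres (h1 ▸ hu : res u' ≠ 0)
  have nA' := norm_one_of res hres (h2 ▸ hA : res A' ≠ 0)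
  have hp2 : p ^ M ≠ 0 := pow_ne_zero _ hp.ne_zero
  have ng : ‖g‖ = 1 := by
    have h3 := congrArg norm h
    rw [norm_mul, norm_mul, norm_mul, nu, nA, nu', nA', one_mul, one_mul, norm_pow] at h3
    exact (pow_eq_one_iff_of_nonneg (norm_nonneg _) hp2).1 h3.symm
  set G : ball1 L := ⟨g, ng.le⟩ with hG
  have h4 : u' * A = u * A' * G ^ p ^ M := Subtype.ext h
  have h5 : res G ^ p ^ M = 1 := by
    have h6 := congrArg res h4
    rw [map_mul, map_mul, map_mul, map_pow, ← h1, ← h2] at h6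
    have h7 : res u * res A ≠ 0 := mul_ne_zero hu hA
    exact (mul_right_eq_self₀.1 h6.symm).resolve_right h7
  have h6 : res G = 1 := by
    have hfact : Fact p.Prime := ⟨hp⟩
    have h7 : (res G - 1) ^ p ^ M = 0 := by
      rw [sub_pow_char_pow, h5, one_pow, sub_self]
    exact sub_eq_zero.1 (pow_eq_zero_iff hp2 |>.1 h7)
  have h7 : ‖g - 1‖ < 1 := by
    have h8 := (res_eq_iff res hres (x := G) (y := 1)).1 (by rw [h6, map_one])
    exact h8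
  have h8 := pow_pp_near hπ0 hπ1 hπ hp hpL h7 M
  rw [h]
  have e : (u : L) * A' * g ^ p ^ M - u * A' = u * A' * (g ^ p ^ M - 1) := by ring
  rw [e, norm_mul, norm_mul, nu, nA', one_mul, one_mul]
  exact h8

include hπ0 hπ1 hπ hp hpL hres in
/-- the derivative of a function with a given class; `P0`, `P1` are values at two points, with
difference about `DP * d`, and `Q0`, `Q1` are other classes -/
lemma deriv_class {u u' d : ball1 L} {α : L} {P0 P1 DP Q0 Q1 : ball1 L} {M : ℕ}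
    (hd : ‖π‖ ^ M ≤ ‖(d : L)‖) (hd1 : ‖(d : L)‖ ≤ ‖π‖)
    (hP : res P0 ≠ 0) (hP1 : res P1 = res P0) (hQ0 : res Q0 ≠ 0) (hQ1 : res Q1 ≠ 0)
    (hexp : ‖(P1 : L) - P0 - DP * d‖ ≤ ‖(d : L)‖ ^ 2)
    (huu : res u = res u')
    (hc : (u : L) ≠ 0 → ∃ γ : L, (u : L) = α * P0 * γ ^ p ^ M)
    (hc' : (u' : L) ≠ 0 → ∃ γ : L, (u' : L) = α * P1 * γ ^ p ^ M)
    (h3 : ∃ γ : L, (u : L) = Q0 * γ ^ (M + 1))
    (h3' : ∃ γ : L, (u' : L) = Q1 * γ ^ (M + 1)) :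
    ‖((u' : L) - u) * P0 - u * DP * d‖ ≤ ‖π‖ * ‖(d : L)‖ := by
  have hπp : 0 < ‖π‖ := norm_pos_iff.2 hπ0
  have hd3 : ‖π‖ ^ (M + 1) ≤ ‖π‖ * ‖(d : L)‖ := by
    calc ‖π‖ ^ (M + 1) = ‖π‖ * ‖π‖ ^ M := by ring
      _ ≤ _ := mul_le_mul_of_nonneg_left hd hπp.le
  have hdd : ‖(d : L)‖ ^ 2 ≤ ‖π‖ * ‖(d : L)‖ := by
    rw [sq]
    exact mul_le_mul_of_nonneg_right hd1 (norm_nonneg _)
  by_cases hu : res u = 0
  · -- small values
    have hu' : res u' = 0 := huu ▸ hu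
    obtain ⟨γ, hγ⟩ := h3
    obtain ⟨γ', hγ'⟩ := h3'
    have n1 : ‖(u : L)‖ ≤ ‖π‖ ^ (M + 1) := pow_small hπ0 hπ1 hπ (norm_one_of res hres hQ0) hγ
      ((hres u).1 hu)
    have n2 : ‖(u' : L)‖ ≤ ‖π‖ ^ (M + 1) := pow_small hπ0 hπ1 hπ (norm_one_of res hres hQ1) hγ'
      ((hres u').1 hu')
    have n3 : ‖(u' : L) - u‖ ≤ ‖π‖ ^ (M + 1) := sub2 n2 n1
    refine sub2 ?_ ?_
    · rw [norm_mul]
      calc _ ≤ ‖π‖ ^ (M + 1) * 1 := mul_le_mul n3 P0.2 (norm_nonneg _) (by positivity)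
        _ ≤ _ := by rw [mul_one]; exact hd3
    · rw [norm_mul, norm_mul]
      have n4 : ‖(u : L)‖ ≤ ‖π‖ := n1.trans (by
        calc ‖π‖ ^ (M + 1) ≤ ‖π‖ ^ 1 := pow_le_pow_of_le_one hπp.le hπ1.le (by omega)
          _ = _ := pow_one _)
      calc _ ≤ ‖π‖ * 1 * ‖(d : L)‖ := by
            refine mul_le_mul_of_nonneg_right ?_ (norm_nonneg _)
            exact mul_le_mul n4 DP.2 (norm_nonneg _) hπp.le
        _ = _ := by rw [mul_one]
  · have hu' : res u' ≠ 0 := huu ▸ hu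
    have nu := norm_one_of res hres hu
    have nu' := norm_one_of res hres hu'
    have hu0 : (u : L) ≠ 0 := by
      intro h
      rw [h, norm_zero] at nu
      exact zero_ne_one nu
    have hu0' : (u' : L) ≠ 0 := by
      intro h
      rw [h, norm_zero] at nu'
      exact zero_ne_one nu'
    obtain ⟨γ, hγ⟩ := hc hu0
    obtain ⟨γ', hγ'⟩ := hc' hu0'
    have hγ0 : γ ≠ 0 := by
      rintro rfl
      rw [zero_pow (pow_ne_zero _ hp.ne_zero), mul_zero] at hγ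
      exact hu0 hγ
    have h1 := ratio hπ0 hπ1 hπ hp hpL res hres (u := u) (u' := u') (A := P0)
      (A' := P1) (g := γ' / γ) (M := M) hu hP huu hP1.symm (by
        rw [div_pow]
        have : γ ^ p ^ M ≠ 0 := pow_ne_zero _ hγ0
        field_simp
        rw [hγ, hγ']
        ring)
    have e : ((u' : L) - u) * P0 - u * DP * d =
        ((u' : L) * P0 - u * P1) + u * ((P1 : L) - P0 - DP * d) := by ring
    rw [e]
    refine (IsUltrametricDist.norm_add_le_max _ _).trans (max_le (h1.trans hd3) ?_)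
    rw [norm_mul, nu, one_mul]
    exact hexp.trans hdd

include hπ0 hπ1 hπ hp hpL hres in
/-- two values with the same residue -/
lemma same_res {u u' d : ball1 L} {α β : L} {A0 A1 DA H0 H1 DH A3 A3' H3 H3' : ball1 L} {M : ℕ}
    (hd : ‖π‖ ^ M ≤ ‖(d : L)‖) (hd1 : ‖(d : L)‖ ≤ ‖π‖)
    (hA : res A0 ≠ 0) (hA1 : res A1 = res A0) (hH : res H0 ≠ 0) (hH1 : res H1 = res H0)
    (hA3 : res A3 ≠ 0) (hA3' : res A3' ≠ 0) (hH3 : res H3 ≠ 0) (hH3' : res H3' ≠ 0)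
    (eA : ‖(A1 : L) - A0 - DA * d‖ ≤ ‖(d : L)‖ ^ 2)
    (eH : ‖(H1 : L) - H0 - DH * d‖ ≤ ‖(d : L)‖ ^ 2)
    (huu : res u = res u')
    (hc : (u : L) ≠ 0 → ∃ γ : L, (u : L) = α * A0 * γ ^ p ^ M)
    (hc' : (u' : L) ≠ 0 → ∃ γ : L, (u' : L) = α * A1 * γ ^ p ^ M)
    (h3 : ∃ γ : L, (u : L) = A3 * γ ^ (M + 1))
    (h3' : ∃ γ : L, (u' : L) = A3' * γ ^ (M + 1))
    (kc : (u : L) ≠ 1 → ∃ γ : L, (u : L) - 1 = β * H0 * γ ^ p ^ M)
    (kc' : (u' : L) ≠ 1 → ∃ γ : L, (u' : L) - 1 = β * H1 * γ ^ p ^ M)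
    (k3 : ∃ γ : L, (u : L) - 1 = H3 * γ ^ (M + 1))
    (k3' : ∃ γ : L, (u' : L) - 1 = H3' * γ ^ (M + 1)) :
    res u * res DA * res H0 = (res u - 1) * res DH * res A0 := by
  have hπp : 0 < ‖π‖ := norm_pos_iff.2 hπ0
  have hdp : 0 < ‖(d : L)‖ := lt_of_lt_of_le (by positivity) hd
  have f1 := deriv_class hπ0 hπ1 hπ hp hpL res hres hd hd1 hA hA1 hA3 hA3' eA huu hc hc' h3 h3'
  have f2 := deriv_class hπ0 hπ1 hπ hp hpL res hres (u := u - 1) (u' := u' - 1) (α := β) hd hd1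
    hH hH1 hH3 hH3' eH (by rw [map_sub, map_sub, huu])
    (fun h => by
      obtain ⟨γ, hγ⟩ := kc (fun h' => h (by push_cast; rw [h', sub_self]))
      exact ⟨γ, by push_cast; exact hγ⟩)
    (fun h => by
      obtain ⟨γ, hγ⟩ := kc' (fun h' => h (by push_cast; rw [h', sub_self]))
      exact ⟨γ, by push_cast; exact hγ⟩)
    (by obtain ⟨γ, hγ⟩ := k3; exact ⟨γ, by push_cast; exact hγ⟩)
    (by obtain ⟨γ, hγ⟩ := k3'; exact ⟨γ, by push_cast; exact hγ⟩)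
  have e1 : (((u' - 1 : ball1 L) : L) - ((u - 1 : ball1 L) : L)) = (u' : L) - u := by
    push_cast
    ring
  rw [e1] at f2
  have e2 : ((u - 1 : ball1 L) : L) = (u : L) - 1 := by push_cast; ring
  rw [e2] at f2
  have g1 : ‖(((u : L) * DA * H0 - (u - 1) * DH * A0) * d)‖ ≤ ‖π‖ * ‖(d : L)‖ := by
    have e3 : ((u : L) * DA * H0 - (u - 1) * DH * A0) * d =
        (((u' : L) - u) * H0 - (u - 1) * DH * d) * A0 -
          (((u' : L) - u) * A0 - u * DA * d) * H0 := by ring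
    rw [e3]
    refine sub2 ?_ ?_
    · rw [norm_mul]
      calc _ ≤ ‖π‖ * ‖(d : L)‖ * 1 := mul_le_mul f2 A0.2 (norm_nonneg _) (by positivity)
        _ = _ := mul_one _
    · rw [norm_mul]
      calc _ ≤ ‖π‖ * ‖(d : L)‖ * 1 := mul_le_mul f1 H0.2 (norm_nonneg _) (by positivity)
        _ = _ := mul_one _
  rw [norm_mul] at g1
  have g2 : ‖((u : L) * DA * H0 - (u - 1) * DH * A0)‖ ≤ ‖π‖ := le_of_mul_le_mul_right g1 hdp
  have g3 : res (u * DA * H0) = res ((u - 1) * DH * A0) := by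
    rw [res_eq_iff res hres]
    push_cast
    exact g2.trans_lt hπ1
  rw [map_mul, map_mul, map_mul, map_mul, map_sub, map_one] at g3
  exact g3

include hπ0 hπ1 hπ hp hpL hres in
/-- two infinite values; `ρ` is `(u - 1) / u` -/
lemma same_inf {ρ ρ' d : ball1 L} {α β : L} {A0 A1 DA H0 H1 DH : ball1 L} {M : ℕ}
    (hd : ‖π‖ ^ M ≤ ‖(d : L)‖) (hd1 : ‖(d : L)‖ ≤ ‖π‖)
    (hA : res A0 ≠ 0) (hA1 : res A1 = res A0) (hH : res H0 ≠ 0) (hH1 : res H1 = res H0)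
    (eA : ‖(A1 : L) - A0 - DA * d‖ ≤ ‖(d : L)‖ ^ 2)
    (eH : ‖(H1 : L) - H0 - DH * d‖ ≤ ‖(d : L)‖ ^ 2)
    (hρ : ‖(ρ : L) - 1‖ ≤ ‖π‖ ^ (M + 1)) (hρ' : ‖(ρ' : L) - 1‖ ≤ ‖π‖ ^ (M + 1))
    (hc : ∃ γ : L, (ρ : L) * (α * A0) = β * H0 * γ ^ p ^ M)
    (hc' : ∃ γ : L, (ρ' : L) * (α * A1) = β * H1 * γ ^ p ^ M) (hα : α ≠ 0) :
    res DA * res H0 = res DH * res A0 := by
  have hπp : 0 < ‖π‖ := norm_pos_iff.2 hπ0
  have hdp : 0 < ‖(d : L)‖ := lt_of_lt_of_le (by positivity) hd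
  have hd3 : ‖π‖ ^ (M + 1) ≤ ‖π‖ * ‖(d : L)‖ := by
    calc ‖π‖ ^ (M + 1) = ‖π‖ * ‖π‖ ^ M := by ring
      _ ≤ _ := mul_le_mul_of_nonneg_left hd hπp.le
  have hdd : ‖(d : L)‖ ^ 2 ≤ ‖π‖ * ‖(d : L)‖ := by
    rw [sq]
    exact mul_le_mul_of_nonneg_right hd1 (norm_nonneg _)
  have h31 : ‖π‖ ^ (M + 1) < 1 := pow_lt_one₀ hπp.le hπ1 (by omega)
  have r1 : res ρ = 1 := by
    rw [← map_one res, res_eq_iff res hres]
    exact hρ.trans_lt h31
  have r2 : res ρ' = 1 := by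
    rw [← map_one res, res_eq_iff res hres]
    exact hρ'.trans_lt h31
  obtain ⟨γ, hγ⟩ := hc
  obtain ⟨γ', hγ'⟩ := hc'
  have nA := norm_one_of res hres hA
  have hA0 : (A0 : L) ≠ 0 := by
    intro h
    rw [h, norm_zero] at nA
    exact zero_ne_one nA
  have hρ0 : (ρ : L) ≠ 0 := by
    intro h
    have : res ρ = 0 := by
      have : ρ = 0 := Subtype.ext h
      rw [this, map_zero]
    rw [r1] at this
    exact one_ne_zero this
  have hγ0 : γ ≠ 0 := by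
    rintro rfl
    rw [zero_pow (pow_ne_zero _ hp.ne_zero), mul_zero] at hγ
    exact mul_ne_zero hρ0 (mul_ne_zero hα hA0) hγ
  have h1 := ratio hπ0 hπ1 hπ hp hpL res hres (u := ρ * A0) (u' := ρ' * A1)
    (A := H0) (A' := H1) (g := γ' / γ) (M := M) (by rw [map_mul, r1, one_mul]; exact hA)
    hH (by rw [map_mul, map_mul, r1, r2, hA1]) hH1.symm (by
      rw [div_pow]
      have h2 : γ ^ p ^ M ≠ 0 := pow_ne_zero _ hγ0
      push_cast
      field_simp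
      have e : α * ((ρ' : L) * A1 * H0 * γ ^ p ^ M) =
          α * ((ρ : L) * A0 * H1 * γ' ^ p ^ M) := by
        calc _ = ((ρ' : L) * (α * A1)) * ((H0 : L) * γ ^ p ^ M) := by ring
          _ = (β * H1 * γ' ^ p ^ M) * ((H0 : L) * γ ^ p ^ M) := by rw [hγ']
          _ = (β * H0 * γ ^ p ^ M) * ((H1 : L) * γ' ^ p ^ M) := by ring
          _ = ((ρ : L) * (α * A0)) * ((H1 : L) * γ' ^ p ^ M) := by rw [hγ]
          _ = _ := by ring
      exact mul_left_cancel₀ hα e)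
  have g0 : ‖(ρ' : L) * A1 * H0 - ρ * A0 * H1‖ ≤ ‖π‖ ^ (M + 1) := by
    have e : (((ρ' * A1 : ball1 L) : L) * H0 - ((ρ * A0 : ball1 L) : L) * H1) =
        (ρ' : L) * A1 * H0 - ρ * A0 * H1 := by
      push_cast
      ring
    rw [← e]
    exact h1
  have g1 : ‖((DA : L) * H0 - DH * A0) * d‖ ≤ ‖π‖ * ‖(d : L)‖ := by
    have e3 : ((DA : L) * H0 - DH * A0) * d =
        ((ρ' : L) * A1 * H0 - ρ * A0 * H1) + (((ρ : L) - 1) * (A0 * H1) - ((ρ' : L) - 1) * (A1 * H0)) +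
          (((H1 : L) - H0 - DH * d) * A0 - ((A1 : L) - A0 - DA * d) * H0) := by ring
    rw [e3]
    refine add3 (g0.trans hd3) (sub2 ?_ ?_) (sub2 ?_ ?_)
    · rw [norm_mul, norm_mul]
      calc _ ≤ ‖π‖ ^ (M + 1) * (1 * 1) := mul_le_mul hρ (mul_le_mul A0.2 H1.2 (norm_nonneg _)
            zero_le_one) (by positivity) (by positivity)
        _ ≤ _ := by rw [mul_one, mul_one]; exact hd3
    · rw [norm_mul, norm_mul]
      calc _ ≤ ‖π‖ ^ (M + 1) * (1 * 1) := mul_le_mul hρ' (mul_le_mul A1.2 H0.2 (norm_nonneg _)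
            zero_le_one) (by positivity) (by positivity)
        _ ≤ _ := by rw [mul_one, mul_one]; exact hd3
    · rw [norm_mul]
      calc _ ≤ ‖(d : L)‖ ^ 2 * 1 := mul_le_mul eH A0.2 (norm_nonneg _) (by positivity)
        _ ≤ _ := by rw [mul_one]; exact hdd
    · rw [norm_mul]
      calc _ ≤ ‖(d : L)‖ ^ 2 * 1 := mul_le_mul eA H0.2 (norm_nonneg _) (by positivity)
        _ ≤ _ := by rw [mul_one]; exact hdd
  rw [norm_mul] at g1
  have g2 : ‖((DA : L) * H0 - DH * A0)‖ ≤ ‖π‖ := le_of_mul_le_mul_right g1 hdp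
  have g3 : res (DA * H0) = res (DH * A0) := by
    rw [res_eq_iff res hres]
    push_cast
    exact g2.trans_lt hπ1
  rw [map_mul, map_mul] at g3
  exact g3

end Pool.Agent.Helper39.FX.Loc
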