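import Pool.Agent.Helper39.FX.Main0
import Pool.Agent.Helper4.FX.Masn

/-!
# Semilinear actions over function fields of curves with points at all places
-/

set_option autoImplicit false

namespace Pool.Agent.Helper39.FX

/-- the function which vanishes at all places -/
theorem allc_main : S_ALLC := allc_of Pool.Agent.Helper4.FX.main

end Pool.Agent.Helper39.FX
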