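import Pool.Agent.Helper39.FX.RedN2
import Pool.Agent.Helper90.FX.SelN
import Pool.Agent.Helper90.FX.Emb
import Pool.Agent.Helper90.FX.Inf
import Pool.Agent.Helper92.FX.Hen
import Pool.Agent.Helper92.FX.Exp
import Pool.Agent.Helper92.FX.Fin
import Pool.Agent.Helper25.FX.NMR
import Pool.Agent.Helper25.FX.WRL
import Pool.Agent.Helper41.FX.BN
import Pool.Agent.Helper41.FX.CNG
import Pool.Agent.Helper47.FX.E1
import Pool.Agent.Helper77.FX.ALLC
import Pool.Agent.Helper88.FX.E2
import Pool.Agent.Helper88.FT.U4
import Pool.Agent.Helper4.FT.Nrm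
import Pool.Agent.Helper83.FT.LFT
import Pool.Agent.Helper41.FT.Int

/-!
# Semilinear actions over function fields of curves with points at all places
-/

set_option autoImplicit false

namespace Pool.Agent.Helper39.FX

/-- the function which vanishes at all places, from the bound of degrees -/
theorem allc_of (hMASN : S_MASN) : S_ALLC :=
  Pool.Agent.Helper77.FX.ALLC.allc
    (Pool.Agent.Helper90.FX.Sel.main Pool.Agent.Helper88.FT.main Pool.Agent.Helper41.FX.BN.main
      Pool.Agent.Helper25.FX.nmr Pool.Agent.Helper25.FX.wrl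
      (redN Pool.Agent.Helper90.FX.emb Pool.Agent.Helper92.FX.hen_main
        Pool.Agent.Helper92.FX.exp_main))
    (Pool.Agent.Helper47.FX.main
      (Pool.Agent.Helper41.FX.CNG.main Pool.Agent.Helper4.FT.main Pool.Agent.Helper25.FX.nmr)
      hMASN Pool.Agent.Helper83.FT.main Pool.Agent.Helper41.FT.main Pool.Agent.Helper25.FX.nmr)
    (Pool.Agent.Helper88.FX.E2.main Pool.Agent.Helper92.FX.main
      (Pool.Agent.Helper90.FX.inf) Pool.Agent.Helper25.FX.nmr)

end Pool.Agent.Helper39.FX
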