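import Pool.Agent.Helper39.FX.Loc

/-!
# The pigeonhole principle for several points
-/

set_option autoImplicit false
set_option linter.unusedSectionVars false

open Polynomial

namespace Pool.Agent.Helper39.FX.Loc

open Pool.Agent.Y791.BF Pool.Agent.Helper39.FT.Loc

variable {L : Type} [NormedField L] [IsUltrametricDist L] {π : L} (hπ0 : π ≠ 0) (hπ1 : ‖π‖ < 1)

include hπ0 hπ1 in
/-- expansions in powers of `π` -/
lemma digits (M : ℕ) (e : Fin M → L) (he : ∀ j, e j = 0 ∨ ‖e j‖ = 1) (h0 : ∃ j, e j ≠ 0) :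
    ‖π‖ ^ M ≤ ‖π * ∑ j : Fin M, π ^ (j : ℕ) * e j‖ := by
  have hπp : 0 < ‖π‖ := norm_pos_iff.2 hπ0
  induction M with
  | zero =>
    obtain ⟨j, -⟩ := h0
    exact j.elim0
  | succ M ih =>
    have hle1 : ‖∑ j : Fin M, π ^ (j : ℕ) * e j.succ‖ ≤ 1 := by
      refine IsUltrametricDist.norm_sum_le_of_forall_le_of_nonneg zero_le_one fun j _ => ?_
      rw [norm_mul, norm_pow]
      have h1 : ‖e j.succ‖ ≤ 1 := by
        rcases he j.succ with h | h
        · rw [h, norm_zero]
          exact zero_le_one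
        · exact h.le
      calc ‖π‖ ^ (j : ℕ) * ‖e j.succ‖ ≤ 1 * 1 :=
            mul_le_mul (pow_le_one₀ hπp.le hπ1.le) h1 (norm_nonneg _) zero_le_one
        _ = 1 := one_mul 1
    have hsum : ∑ j : Fin (M + 1), π ^ (j : ℕ) * e j =
        e 0 + π * ∑ j : Fin M, π ^ (j : ℕ) * e j.succ := by
      rw [Fin.sum_univ_succ, Finset.mul_sum]
      simp only [Fin.val_zero, pow_zero, one_mul, Fin.val_succ]
      congr 1
      refine Finset.sum_congr rfl fun j _ => ?_
      rw [pow_succ]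
      ring
    rw [hsum]
    rcases he 0 with h | h
    · obtain ⟨j, hj⟩ := h0
      have h1 : ∃ j : Fin M, e j.succ ≠ 0 := by
        refine Fin.cases (fun hj => absurd h hj) (fun j hj => ⟨j, hj⟩) j hj
      have h2 := ih (fun j => e j.succ) (fun j => he j.succ) h1
      rw [h, zero_add, norm_mul, pow_succ, mul_comm]
      exact mul_le_mul_of_nonneg_left h2 hπp.le
    · have h1 : ‖π * ∑ j : Fin M, π ^ (j : ℕ) * e j.succ‖ < ‖e 0‖ := by
        rw [norm_mul, h]
        exact (mul_le_of_le_one_right hπp.le hle1).trans_lt hπ1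
      rw [norm_mul, norm_add_eq h1, h, mul_one]
      calc ‖π‖ ^ (M + 1) ≤ ‖π‖ ^ 1 := pow_le_pow_of_le_one hπp.le hπ1.le (by omega)
        _ = ‖π‖ := pow_one _

variable {E : Type} [Field E] (res : ball1 L →+* E)
  (hres : ∀ y, res y = 0 ↔ ‖(y : L)‖ < 1)

include hπ0 hπ1 hres in
/-- two points with the same residues of the values -/
lemma pigeonN {K : Type} [Field K] [Algebra K L]
    (hdense : ∀ (x : L) (ε : ℝ), 0 < ε → ∃ t, Transcendental K t ∧ ‖t - x‖ < ε)
    (hfin : (Set.range res).Finite) {n : ℕ} (hn : 0 < n) {J : Type} [Fintype J]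
    (hJ : Fintype.card J ≤ n) (W : L → J → Option (Set.range res)) (a0 : ball1 L) :
    ∃ t d : ball1 L, Transcendental K (t : L) ∧ Transcendental K ((t + d : ball1 L) : L) ∧
      res t = res a0 ∧ ‖π‖ ^ (2 * n) ≤ ‖(d : L)‖ ∧ ‖(d : L)‖ ≤ ‖π‖ ∧
      W t = W ((t + d : ball1 L) : L) := by
  classical
  have hπp : 0 < ‖π‖ := norm_pos_iff.2 hπ0
  have hfi : Finite (Set.range res) := hfin
  have hft : Fintype (Set.range res) := Fintype.ofFinite _
  set M := 2 * n with hM
  choose σ hσ using fun s : Set.range res => s.2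
  let pi0 : ball1 L := ⟨π, hπ1.le⟩
  let z : (Fin M → Set.range res) → ball1 L := fun s => a0 + pi0 * ∑ j : Fin M, pi0 ^ (j : ℕ) * σ (s j)
  choose τ hτ1 hτ2 using fun s : Fin M → Set.range res => hdense (z s : L) (‖π‖ ^ (M + 1)) (by positivity)
  have hleM : ‖π‖ ^ (M + 1) < ‖π‖ ^ M := by
    rw [pow_succ]
    exact mul_lt_of_lt_one_right (by positivity) hπ1
  have hle1 : ‖π‖ ^ (M + 1) ≤ ‖π‖ := by
    calc ‖π‖ ^ (M + 1) ≤ ‖π‖ ^ 1 := pow_le_pow_of_le_one hπp.le hπ1.le (by omega)
      _ = ‖π‖ := pow_one _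
  have hτ3 : ∀ s, ‖τ s‖ ≤ 1 := by
    intro s
    have e : τ s = (τ s - (z s : L)) + (z s : L) := by ring
    rw [e]
    refine (IsUltrametricDist.norm_add_le_max _ _).trans (max_le ?_ (z s).2)
    exact (hτ2 s).le.trans (pow_le_one₀ hπp.le hπ1.le)
  have hcard : Fintype.card (J → Option (Set.range res)) < Fintype.card (Fin M → Set.range res) := by
    rw [Fintype.card_fun, Fintype.card_fun, Fintype.card_option, Fintype.card_fin]
    have h2 : 2 ≤ Fintype.card (Set.range res) := by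
      have h01 : (⟨res 0, ⟨0, rfl⟩⟩ : Set.range res) ≠ ⟨res 1, ⟨1, rfl⟩⟩ := by
        intro h
        have := congrArg Subtype.val h
        simp at this
      exact Fintype.one_lt_card_iff.2 ⟨_, _, h01⟩
    have h3 : ∀ n : ℕ, 2 ≤ n → n + 1 < n ^ 2 := fun n hn => by nlinarith
    calc (Fintype.card (Set.range res) + 1) ^ Fintype.card J ≤ (Fintype.card (Set.range res) + 1) ^ n :=
          Nat.pow_le_pow_right (Nat.succ_pos _) hJ
      _ < (Fintype.card (Set.range res) ^ 2) ^ n := Nat.pow_lt_pow_left (h3 _ h2) hn.ne'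
      _ = Fintype.card (Set.range res) ^ M := by rw [← pow_mul]
  obtain ⟨s, s', hss, hrs⟩ := Fintype.exists_ne_map_eq_of_card_lt (fun s => W (τ s)) hcard
  let t : ball1 L := ⟨τ s, hτ3 s⟩
  let t' : ball1 L := ⟨τ s', hτ3 s'⟩
  have htd : t + (t' - t) = t' := by ring
  have hz : ∀ s, ‖(z s : L) - a0‖ ≤ ‖π‖ := by
    intro s
    have e : (z s : L) - a0 = π * ((∑ j : Fin M, pi0 ^ (j : ℕ) * σ (s j) : ball1 L) : L) := by
      change ((a0 + pi0 * ∑ j : Fin M, pi0 ^ (j : ℕ) * σ (s j) : ball1 L) : L) - a0 = _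
      push_cast
      ring
    rw [e, norm_mul]
    exact mul_le_of_le_one_right hπp.le (∑ j : Fin M, pi0 ^ (j : ℕ) * σ (s j) : ball1 L).2
  have hσne : ∀ a b : Set.range res, a ≠ b → ‖((σ a : ball1 L) : L) - σ b‖ = 1 := by
    intro a b hab
    have h1 : ¬ ‖((σ a : ball1 L) : L) - σ b‖ < 1 := by
      rw [← res_eq_iff res hres, hσ, hσ]
      exact fun h => hab (Subtype.ext h)
    push Not at h1
    exact le_antisymm (sub2 (σ a).2 (σ b).2) h1
  have hmain : ‖π‖ ^ M ≤ ‖(z s' : L) - z s‖ := by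
    have e : (z s' : L) - z s = π * ∑ j : Fin M, π ^ (j : ℕ) * ((σ (s' j) : L) - σ (s j)) := by
      change ((a0 + pi0 * ∑ j : Fin M, pi0 ^ (j : ℕ) * σ (s' j) : ball1 L) : L) -
        ((a0 + pi0 * ∑ j : Fin M, pi0 ^ (j : ℕ) * σ (s j) : ball1 L) : L) = _
      push_cast
      change _ + π * _ - (_ + π * _) = _
      have e2 : ∀ x y z : L, x + π * y - (x + π * z) = π * (y - z) := fun x y z => by ring
      rw [e2, ← Finset.sum_sub_distrib]
      congr 1
      refine Finset.sum_congr rfl fun j _ => ?_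
      ring
    rw [e]
    refine digits hπ0 hπ1 M _ (fun j => ?_) ?_
    · by_cases h : s' j = s j
      · left
        rw [h, sub_self]
      · right
        exact hσne _ _ h
    · obtain ⟨j, hj⟩ := Function.ne_iff.1 hss
      refine ⟨j, fun h => ?_⟩
      have h1 := hσne _ _ (Ne.symm hj)
      rw [h, norm_zero] at h1
      exact zero_ne_one h1
  have hdist : ‖((t' - t : ball1 L) : L) - ((z s' : L) - z s)‖ ≤ ‖π‖ ^ (M + 1) := by
    have e : ((t' - t : ball1 L) : L) - ((z s' : L) - z s) = (τ s' - z s') - (τ s - z s) := by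
      push_cast
      change (τ s' - τ s) - _ = _
      ring
    rw [e]
    exact sub2 (hτ2 s').le (hτ2 s).le
  refine ⟨t, t' - t, hτ1 s, by rw [htd]; exact hτ1 s', ?_, ?_, ?_, by rw [htd]; exact hrs⟩
  · rw [res_eq_iff res hres]
    have e : (t : L) - a0 = (τ s - z s) + ((z s : L) - a0) := by
      change τ s - _ = _
      ring
    rw [e]
    exact ((IsUltrametricDist.norm_add_le_max _ _).trans
      (max_le ((hτ2 s).le.trans hle1) (hz s))).trans_lt hπ1
  · by_contra hcon
    push Not at hcon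
    have e : (z s' : L) - z s = ((t' - t : ball1 L) : L) -
        (((t' - t : ball1 L) : L) - ((z s' : L) - z s)) := by ring
    have h1 : ‖(z s' : L) - z s‖ < ‖π‖ ^ M := by
      rw [e, sub_eq_add_neg]
      refine (IsUltrametricDist.norm_add_le_max _ _).trans_lt (max_lt hcon ?_)
      rw [norm_neg]
      exact hdist.trans_lt hleM
    linarith
  · have e : ((t' - t : ball1 L) : L) = (((t' - t : ball1 L) : L) - ((z s' : L) - z s)) +
        (((z s' : L) - a0) - ((z s : L) - a0)) := by ring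
    rw [e]
    exact (IsUltrametricDist.norm_add_le_max _ _).trans
      (max_le (hdist.trans hle1) (sub2 (hz s') (hz s)))

end Pool.Agent.Helper39.FX.Loc
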