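import Pool.Agent.Helper39.FX.Two

/-!
# The local lemma at a reduction system, on a curve
-/

set_option autoImplicit false
set_option linter.unusedSectionVars false

open Polynomial IsDedekindDomain NumberField

namespace Pool.Agent.Helper39.FX

open Pool.Agent.TH954 Pool.Agent.Y791.BF Pool.Agent.Helper39.FT
open Pool.Agent.Y791.BS (nnf ultra proper charZero_compl exists_unif)
open Pool.Agent.Helper39.FT.Loc (rs rs_some rs_none norm_one_of res_eq_iff sub2)

section gen

variable {K k : Type} [Field K] [Field k] {F0 : Type} [Field F0] [Algebra k F0]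
  (q : ∀ i : PlF k, Plc k F0 i.Lv)

open scoped Classical in
/-- the value at an embedding -/
noncomputable def vk (i : PlF K) (φ : k →+* i.Lv) (x : F0) : Option i.Lv :=
  if h : x ∈ (q (pl i φ)).W then some ((q (pl i φ)).ρ ⟨x, h⟩) else none

lemma vk_some {i : PlF K} {φ : k →+* i.Lv} {x : F0} {u : i.Lv} :
    vk q i φ x = some u ↔ (q (pl i φ)).val x u := by
  unfold vk
  constructor
  · intro h
    by_cases hx : x ∈ (q (pl i φ)).W
    · rw [dif_pos hx] at h
      exact ⟨hx, Option.some.inj h⟩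
    · rw [dif_neg hx] at h
      exact absurd h (by simp)
  · rintro ⟨hx, h⟩
    rw [dif_pos hx]
    exact congrArg some h

lemma vk_none {i : PlF K} {φ : k →+* i.Lv} {x : F0} :
    vk q i φ x = none ↔ x ∉ (q (pl i φ)).W := by
  unfold vk
  constructor
  · intro h hx
    rw [dif_pos hx] at h
    exact absurd h (by simp)
  · intro hx
    rw [dif_neg hx]

lemma trans_eval {i : PlF K} {t : i.Lv} (ht : Transcendental K t) {d : K[X]} (hd : d ≠ 0) :
    eval₂ i.φ t d ≠ 0 := fun h => hd ((transcendental_iff.1 ht) d h)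

variable (D : RSys K) (m : ℕ)

/-- roots can be lifted -/
lemma lift_root (hHEN : S_HEN) (f : D.B[X][X]) {t s0 : ball1 (D.i m).Lv}
    (h0 : ev2 (algebraMap (ZMod D.p) D.E) (D.res m t) (D.res m s0) (mp D.r f) = 0)
    (h1 : ev2 (algebraMap (ZMod D.p) D.E) (D.res m t) (D.res m s0) (mp D.r (derivative f)) ≠ 0) :
    ∃ s : ball1 (D.i m).Lv, ev2 (D.psi m) t s f = 0 ∧ D.res m s = D.res m s0 := by
  obtain ⟨s, hs, hs0⟩ := hHEN K (D.i m) (f.map (eval₂RingHom (D.psi m) t)) s0 (by
    rw [← ev2_eval, ← D.res_zero, res_ev2]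
    exact h0) (by
    rw [derivative_map, ← ev2_eval]
    exact norm_one_of (D.res m) (D.res_zero m) (by rw [res_ev2]; exact h1))
  refine ⟨s, by rw [ev2_eval]; exact hs, ?_⟩
  rw [res_eq_iff (D.res m) (D.res_zero m)]
  exact hs0

/-- expansions -/
lemma expand2 (hEXP : S_EXP) (f A : D.B[X][X]) {t d s s' : ball1 (D.i m).Lv}
    (hs : ev2 (D.psi m) t s f = 0) (hs' : ev2 (D.psi m) (t + d) s' f = 0)
    (hss : D.res m s' = D.res m s)
    (h1 : ev2 (algebraMap (ZMod D.p) D.E) (D.res m t) (D.res m s) (mp D.r (derivative f)) ≠ 0) :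
    ‖((((ev2 (D.psi m) (t + d) s' A - ev2 (D.psi m) t s A) * ev2 (D.psi m) t s (derivative f) -
      ev2 (D.psi m) t s (del f A) * d : ball1 (D.i m).Lv)) : (D.i m).Lv)‖ ≤
        ‖(d : (D.i m).Lv)‖ ^ 2 := by
  have e1 : ∀ (t s : ball1 (D.i m).Lv) (P : D.B[X][X]),
      ev2 (RingHom.id _) t s (mp (D.psi m) P) = ev2 (D.psi m) t s P := by
    intro t s P
    rw [ev2_mp, RingHom.id_comp]
  have hss' : s + (s' - s) = s' := by ring
  have h := hEXP (D.i m).Lv (mp (D.psi m) f) (mp (D.psi m) A) t d s (s' - s)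
    (by rw [e1]; exact hs) (by rw [e1, hss']; exact hs')
    (by
      have e2 : derivative (mp (D.psi m) f) = mp (D.psi m) (derivative f) := derivative_map _ _
      rw [e2, e1]
      exact norm_one_of (D.res m) (D.res_zero m) (by rw [res_ev2]; exact h1))
    (by
      have h2 := (res_eq_iff (D.res m) (D.res_zero m)).1 hss
      exact h2)
  have e2 : derivative (mp (D.psi m) f) = mp (D.psi m) (derivative f) := derivative_map _ _
  rw [del_mp, e2, e1, e1, e1, e1, hss'] at h
  exact h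

/-- roots are determined by their residues -/
lemma root_unique (hEXP : S_EXP) (f : D.B[X][X]) {t s s' : ball1 (D.i m).Lv}
    (hs : ev2 (D.psi m) t s f = 0) (hs' : ev2 (D.psi m) t s' f = 0)
    (hss : D.res m s' = D.res m s)
    (h1 : ev2 (algebraMap (ZMod D.p) D.E) (D.res m t) (D.res m s) (mp D.r (derivative f)) ≠ 0) :
    s' = s := by
  have h := expand2 D m hEXP f X (t := t) (d := 0) hs (by rw [add_zero]; exact hs') hss h1
  have e0 : ((0 : ball1 (D.i m).Lv) : (D.i m).Lv) = 0 := rfl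
  rw [ev2_X, ev2_X, mul_zero, sub_zero, e0, norm_zero] at h
  have h2 : ((s' - s) * ev2 (D.psi m) t s (derivative f) : ball1 (D.i m).Lv) = 0 := by
    apply Subtype.ext
    refine norm_eq_zero.1 (le_antisymm (h.trans ?_) (norm_nonneg _))
    norm_num
  have h3 : ‖((ev2 (D.psi m) t s (derivative f) : ball1 (D.i m).Lv) : (D.i m).Lv)‖ = 1 :=
    norm_one_of (D.res m) (D.res_zero m) (by rw [res_ev2]; exact h1)
  have h4 : (((s' : (D.i m).Lv) - s)) *
      ((ev2 (D.psi m) t s (derivative f) : ball1 (D.i m).Lv) : (D.i m).Lv) = 0 :=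
    congrArg Subtype.val h2
  have h5 : ((ev2 (D.psi m) t s (derivative f) : ball1 (D.i m).Lv) : (D.i m).Lv) ≠ 0 := by
    intro h
    rw [h, norm_zero] at h3
    exact zero_ne_one h3
  exact Subtype.ext (sub_eq_zero.1 ((mul_eq_zero.1 h4).resolve_right h5))

/-- roots of monic polynomials are integral -/
lemma root_int {f : D.B[X][X]} (hf : f.Monic) {t : ball1 (D.i m).Lv} {s : (D.i m).Lv}
    (h : ev2 (D.i m).φ (t : (D.i m).Lv) s (mp D.B.subtype f) = 0) : ‖s‖ ≤ 1 := by
  by_contra hcon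
  push Not at hcon
  set P : (ball1 (D.i m).Lv)[X] := f.map (eval₂RingHom (D.psi m) t) with hP
  have hPm : P.Monic := hf.map _
  have hPe : eval₂ (ball1 (D.i m).Lv).subtype s P = 0 := by
    rw [← h, hP, eval₂_map, ev2_mp]
    unfold ev2
    rw [coe_eval₂RingHom]
    congr 1
    apply RingHom.ext
    intro a
    rw [RingHom.comp_apply, coe_eval₂RingHom, coe_eval₂RingHom, hom_eval₂]
    rfl
  have hdeg : P.natDegree ≠ 0 := by
    intro h0
    have h1 : P = 1 := hPm.natDegree_eq_zero.1 h0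
    rw [h1, eval₂_one] at hPe
    exact one_ne_zero hPe
  rw [eval₂_eq_sum_range, Finset.sum_range_succ] at hPe
  have h2 : P.coeff P.natDegree = 1 := hPm
  rw [h2, map_one, one_mul] at hPe
  have h3 : ‖∑ j ∈ Finset.range P.natDegree,
      (ball1 (D.i m).Lv).subtype (P.coeff j) * s ^ j‖ ≤ ‖s‖ ^ (P.natDegree - 1) := by
    refine IsUltrametricDist.norm_sum_le_of_forall_le_of_nonneg (by positivity) fun j hj => ?_
    rw [Finset.mem_range] at hj
    rw [norm_mul, norm_pow]
    calc _ ≤ 1 * ‖s‖ ^ j := mul_le_mul_of_nonneg_right (P.coeff j).2 (by positivity)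
      _ = ‖s‖ ^ j := one_mul _
      _ ≤ _ := pow_le_pow_right₀ hcon.le (by omega)
  have h4 : ‖s ^ P.natDegree‖ ≤ ‖s‖ ^ (P.natDegree - 1) := by
    have e : s ^ P.natDegree = -∑ j ∈ Finset.range P.natDegree,
        (ball1 (D.i m).Lv).subtype (P.coeff j) * s ^ j := by
      linear_combination hPe
    rw [e, norm_neg]
    exact h3
  rw [norm_pow] at h4
  have h5 : ‖s‖ ^ (P.natDegree - 1) < ‖s‖ ^ P.natDegree :=
    pow_lt_pow_right₀ hcon (by omega)
  linarith

end gen

end Pool.Agent.Helper39.FX
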