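import Pool.Agent.Helper39.FX.Defs

/-!
# The statement of the local lemma on a curve (not a result)
-/

set_option autoImplicit false

open Polynomial IsDedekindDomain NumberField

namespace Pool.Agent.Helper39.FX

open Pool.Agent.TH954 Pool.Agent.Y791.BF Pool.Agent.Helper39.FT

/-- REDN: the local lemma at a reduction system. `A`, `H` give the classes of `x`, `x - 1` modulo
`p ^ (2 n)`, and `A3`, `H3` those modulo `2 n + 1`. -/
def S_REDN : Prop :=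
  ∀ (K k : Type) [Field K] [CharZero K] [Field k], Algebra.EssFiniteType ℚ K →
  ∀ (C : Crv K k) (F0 : Type) [Field F0] [Algebra k F0]
  (q : ∀ i : PlF k, Plc k F0 i.Lv) (D : RSys K) (x : F0) (f : D.B[X][X]),
  mp D.B.subtype f = C.f → f.Monic →
  ∀ (α β : K) (A H A3 H3 : D.B[X][X]), α ≠ 0 → β ≠ 0 →
  ClsC C (D.p ^ (2 * C.f.natDegree))
    (Polynomial.C (Polynomial.C α) * mp D.B.subtype A) x →
  ClsC C (D.p ^ (2 * C.f.natDegree))
    (Polynomial.C (Polynomial.C β) * mp D.B.subtype H) (x - 1) →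
  ClsC C (2 * C.f.natDegree + 1) (mp D.B.subtype A3) x →
  ClsC C (2 * C.f.natDegree + 1) (mp D.B.subtype H3) (x - 1) →
  ∀ m : ℕ, 0 < m → ∀ a : D.E, a ^ D.p ^ m = a →
  (∀ b : D.E, ev2 (algebraMap (ZMod D.p) D.E) a b (mp D.r f) = 0 → b ^ D.p ^ m = b ∧
    ev2 (algebraMap (ZMod D.p) D.E) a b (derivative (mp D.r f)) ≠ 0 ∧
    ev2 (algebraMap (ZMod D.p) D.E) a b (mp D.r A) ≠ 0 ∧
    ev2 (algebraMap (ZMod D.p) D.E) a b (mp D.r H) ≠ 0 ∧
    ev2 (algebraMap (ZMod D.p) D.E) a b (mp D.r A3) ≠ 0 ∧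
    ev2 (algebraMap (ZMod D.p) D.E) a b (mp D.r H3) ≠ 0) →
  ∃ t : ball1 (D.i m).Lv, D.res m t = a ∧
    (∃ φ : k →+* (D.i m).Lv, φ.comp C.c = (D.i m).φ ∧ φ C.T = (t : (D.i m).Lv)) ∧
    ∀ φ : k →+* (D.i m).Lv, φ.comp C.c = (D.i m).φ → φ C.T = (t : (D.i m).Lv) →
      ∃ s : ball1 (D.i m).Lv, φ C.α = (s : (D.i m).Lv) ∧
        ev2 (algebraMap (ZMod D.p) D.E) a (D.res m s) (mp D.r f) = 0 ∧
        ((∃ u : ball1 (D.i m).Lv, (q (pl (D.i m) φ)).val x (u : (D.i m).Lv) ∧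
          D.res m u *
            ev2 (algebraMap (ZMod D.p) D.E) a (D.res m s) (del (mp D.r f) (mp D.r A)) *
            ev2 (algebraMap (ZMod D.p) D.E) a (D.res m s) (mp D.r H) =
          (D.res m u - 1) *
            ev2 (algebraMap (ZMod D.p) D.E) a (D.res m s) (del (mp D.r f) (mp D.r H)) *
            ev2 (algebraMap (ZMod D.p) D.E) a (D.res m s) (mp D.r A)) ∨
        ((x ∉ (q (pl (D.i m) φ)).W ∨ ∃ u : (D.i m).Lv, (q (pl (D.i m) φ)).val x u ∧ 1 < ‖u‖) ∧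
          ev2 (algebraMap (ZMod D.p) D.E) a (D.res m s) (del (mp D.r f) (mp D.r A)) *
            ev2 (algebraMap (ZMod D.p) D.E) a (D.res m s) (mp D.r H) =
          ev2 (algebraMap (ZMod D.p) D.E) a (D.res m s) (del (mp D.r f) (mp D.r H)) *
            ev2 (algebraMap (ZMod D.p) D.E) a (D.res m s) (mp D.r A)))

end Pool.Agent.Helper39.FX
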