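import Pool.Agent.Helper39.FX.RedN
import Pool.Agent.Helper39.FX.Stm2

/-!
# The local lemma at a reduction system, on a curve, second part
-/

set_option autoImplicit false
set_option linter.unusedSectionVars false

open Polynomial IsDedekindDomain NumberField

namespace Pool.Agent.Helper39.FX

open Pool.Agent.TH954 Pool.Agent.Y791.BF Pool.Agent.Helper39.FT
open Pool.Agent.Y791.BS (nnf ultra proper charZero_compl exists_unif)
open Pool.Agent.Helper39.FT.Loc (rs rs_some rs_none norm_one_of res_eq_iff sub2)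

section one

variable {K k : Type} [Field K] [Field k] {F0 : Type} [Field F0] [Algebra k F0]
  (q : ∀ i : PlF k, Plc k F0 i.Lv) (C : Crv K k) (D : RSys K) (m : ℕ)

/-- the class of a value -/
lemma clsC_val {i : PlF K} {φ : k →+* i.Lv} (hφ : φ.comp C.c = i.φ) {N : ℕ} (hN : 0 < N)
    {A : K[X][X]} {x : F0} (h : ClsC C N A x) {u : i.Lv} (hu : (q (pl i φ)).val x u) :
    ∃ γ : i.Lv, u = ev2 i.φ (φ C.T) (φ C.α) A * γ ^ N := by
  obtain ⟨hA, g, hg⟩ := h
  obtain ⟨γ, hγ⟩ := kumk_val (q (pl i φ)) hA hN hg hu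
  refine ⟨γ, ?_⟩
  rw [hγ]
  congr 1
  change φ (ev2 C.c C.T C.α A) = _
  rw [map_ev2, hφ]

/-- the class at an infinite value -/
lemma clsC_inf {i : PlF K} {φ : k →+* i.Lv} (hφ : φ.comp C.c = i.φ) {N : ℕ} (hN : 0 < N)
    {A H : K[X][X]} {x : F0} (hA : ClsC C N A x) (hH : ClsC C N H (x - 1))
    (hn : x ∉ (q (pl i φ)).W) :
    ∃ γ : i.Lv, ev2 i.φ (φ C.T) (φ C.α) A = ev2 i.φ (φ C.T) (φ C.α) H * γ ^ N := by
  obtain ⟨hA, g, hg⟩ := hA
  obtain ⟨hH, h, hh⟩ := hH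
  obtain ⟨γ, hγ⟩ := kumk_inf (q (pl i φ)) hA hH hN hg hh hn
  refine ⟨γ, ?_⟩
  have e : ∀ P : K[X][X], algebraMap k (pl i φ).Lv (ev2 C.c C.T C.α P) =
      ev2 i.φ (φ C.T) (φ C.α) P := by
    intro P
    change φ (ev2 C.c C.T C.α P) = _
    rw [map_ev2, hφ]
  rw [e, e] at hγ
  exact hγ

end one

/-- **The local lemma on a curve.** -/
theorem redN (hEMB : S_EMB) (hHEN : S_HEN) (hEXP : S_EXP) : S_REDN := by
  classical
  intro K k _ _ _ hess C F0 _ _ q D x f hf hfm α β A H A3 H3 hα hβ hA hH hA3 hH3 m hm a ha hb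
  have hKc : Countable K := Pool.Agent.Y791.BF.countable_fg K
  have hp := D.hp.out
  set i := D.i m with hi
  set n := C.f.natDegree with hn
  have hn0 : 0 < n := C.pos
  have hpN : 0 < D.p ^ (2 * n) := pow_pos hp.pos _
  obtain ⟨a0, ha0⟩ := (D.res_range m hm a).2 ha
  have hpL : ‖((D.p : ℕ) : i.Lv)‖ < 1 := by
    have h1 : D.res m ((D.p : ℕ) : ball1 i.Lv) = 0 := by
      rw [map_natCast]
      exact CharP.cast_eq_zero _ D.p
    have h2 := (D.res_zero m _).1 h1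
    have h3 : ((((D.p : ℕ) : ball1 i.Lv)) : i.Lv) = ((D.p : ℕ) : i.Lv) := by
      norm_cast
    rw [h3] at h2
    exact h2
  obtain ⟨π, hπ0, hπ1, hπ⟩ := exists_unif i.v
  have hϖ0 : algebraMap i.L i.Lv π ≠ 0 := (_root_.map_ne_zero _).2 hπ0
  set ϖ : i.Lv := algebraMap i.L i.Lv π with hϖ
  have hdense : ∀ (x : i.Lv) (ε : ℝ), 0 < ε → ∃ t, Transcendental K t ∧ ‖t - x‖ < ε := by
    intro x ε hε
    let inst1 : NontriviallyNormedField i.Lv := nnf i.v
    have hul : IsUltrametricDist i.Lv := ultra i.v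
    have hps : ProperSpace i.Lv := proper i.v
    have hch : CharZero i.Lv := charZero_compl i.v
    obtain ⟨t, h1, h2⟩ := (Pool.Agent.Y791.BC.Rig.dense_trans (K := K) (L := i.Lv)).exists_mem_open
      (Metric.isOpen_ball (x := x) (ε := ε)) ⟨x, Metric.mem_ball_self hε⟩
    rw [Metric.mem_ball, dist_eq_norm] at h2
    exact ⟨t, h1, h2⟩
  have hfin : (Set.range (D.res m)).Finite := by
    have h1 : Set.range (D.res m) ⊆ {x : D.E | x ^ D.p ^ m = x} := by
      rintro x ⟨y, hy⟩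
      exact (D.res_range m hm x).1 ⟨y, hy⟩
    refine Set.Finite.subset ?_ h1
    have h2 : (X ^ D.p ^ m - X : D.E[X]) ≠ 0 := by
      have h3 : 1 < D.p ^ m := one_lt_pow₀ hp.one_lt hm.ne'
      exact FiniteField.X_pow_card_sub_X_ne_zero D.E h3
    refine ((X ^ D.p ^ m - X : D.E[X]).rootSet_finite D.E).subset ?_
    intro x hx
    rw [mem_rootSet]
    refine ⟨h2, ?_⟩
    rw [map_sub, map_pow, aeval_X, sub_eq_zero]
    exact hx
  -- evaluation of reductions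
  set ea : D.E → (ZMod D.p)[X][X] →+* D.E := fun b =>
    ev2 (algebraMap (ZMod D.p) D.E) a b with hea
  have hdf : mp D.r (derivative f) = derivative (mp D.r f) := (derivative_map _ _).symm
  -- the polynomial of the second coordinates
  set Pa : D.E[X] := (mp D.r f).map (eval₂RingHom (algebraMap (ZMod D.p) D.E) a) with hPa
  have hPam : Pa.Monic := (hfm.map _).map _
  have hPad : Pa.natDegree = n := by
    rw [hPa, (hfm.map _).natDegree_map, hfm.natDegree_map, hn, ← hf, hfm.natDegree_map]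
  have hPab : ∀ b, Pa.eval b = ea b (mp D.r f) := fun b => (ev2_eval _ _ _ _).symm
  let J : Type := {b // b ∈ Pa.roots.toFinset}
  have hJ : ∀ b : J, ea b (mp D.r f) = 0 := by
    rintro ⟨b, hb⟩
    rw [Multiset.mem_toFinset, mem_roots hPam.ne_zero] at hb
    rw [← hPab]
    exact hb
  have hJ' : ∀ b, ea b (mp D.r f) = 0 → b ∈ Pa.roots.toFinset := by
    intro b hb
    rw [Multiset.mem_toFinset, mem_roots hPam.ne_zero]
    change Pa.eval b = 0
    rw [hPab]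
    exact hb
  have hJc : Fintype.card J ≤ n := by
    rw [← hPad]
    have h1 : Fintype.card J = Pa.roots.toFinset.card := Fintype.card_coe _
    rw [h1]
    exact (Multiset.toFinset_card_le _).trans (card_roots' _)
  -- points
  let Ov : i.Lv → D.E → (k →+* i.Lv) → Prop := fun t b φ =>
    φ.comp C.c = i.φ ∧ φ C.T = t ∧ ∃ s : ball1 i.Lv, φ C.α = (s : i.Lv) ∧ D.res m s = b
  -- equations of the points
  have hroot : ∀ {t : ball1 i.Lv} {φ : k →+* i.Lv} {s : ball1 i.Lv}, φ.comp C.c = i.φ →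
      φ C.T = (t : i.Lv) → φ C.α = (s : i.Lv) → ev2 (D.psi m) t s f = 0 := by
    intro t φ s h1 h2 h3
    have h4 := C.emb_root φ h1
    rw [h2, h3, ← hf] at h4
    exact Subtype.ext ((ev2_psi D m f t s).trans h4)
  have hrootb : ∀ {t : ball1 i.Lv} {s : ball1 i.Lv}, D.res m t = a → ev2 (D.psi m) t s f = 0 →
      ea (D.res m s) (mp D.r f) = 0 := by
    intro t s ht hs
    have h1 := res_ev2 D m f t s
    rw [hs, map_zero, ht] at h1
    exact h1.symm
  -- existence of points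
  have hexi : ∀ {t : ball1 i.Lv}, Transcendental K (t : i.Lv) → D.res m t = a → ∀ b,
      ea b (mp D.r f) = 0 → ∃ φ, Ov t b φ := by
    intro t ht hta b hb0
    obtain ⟨hb1, hb2, -⟩ := hb b hb0
    obtain ⟨s0, hs0⟩ := (D.res_range m hm b).2 hb1
    obtain ⟨s, hs, hsb⟩ := lift_root D m hHEN f (t := t) (s0 := s0)
      (by rw [hta, hs0]; exact hb0) (by rw [hta, hs0, hdf]; exact hb2)
    obtain ⟨φ, h1, h2, h3⟩ := hEMB K k C i.Lv i.φ t s (fun d hd => trans_eval ht hd) (by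
      rw [← hf, ← ev2_psi, hs]
      rfl)
    exact ⟨φ, h1, h2, s, h3, hsb.trans hs0⟩
  -- uniqueness of points
  have huni : ∀ {t : ball1 i.Lv}, D.res m t = a → ∀ {b : D.E} {φ φ' : k →+* i.Lv},
      Ov t b φ → Ov t b φ' → φ = φ' := by
    rintro t hta b φ φ' ⟨h1, h2, s, h3, h4⟩ ⟨h1', h2', s', h3', h4'⟩
    have hs := hroot h1 h2 h3
    have hs' := hroot h1' h2' h3'
    have hb0 := hrootb hta hs
    rw [h4] at hb0
    obtain ⟨-, hb2, -⟩ := hb b hb0
    have e := root_unique D m hEXP f hs hs' (h4'.trans h4.symm)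
      (by rw [hta, h4, hdf]; exact hb2)
    refine C.emb_ext (h1.trans h1'.symm) (h2.trans h2'.symm) ?_
    rw [h3, h3', e]
  let W : i.Lv → J → Option (Set.range (D.res m)) := fun t b =>
    if h : ∃ φ, Ov t b φ then rs (D.res m) (fun _ => vk q i h.choose x) 0 else none
  have hW : ∀ {t : ball1 i.Lv}, D.res m t = a → ∀ {b : J} {φ : k →+* i.Lv}, Ov t b φ →
      W t b = rs (D.res m) (fun _ => vk q i φ x) 0 := by
    intro t hta b φ hφ
    have h : ∃ φ, Ov t b φ := ⟨φ, hφ⟩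
    have e : h.choose = φ := huni hta h.choose_spec hφ
    change (if h : ∃ φ, Ov t b φ then rs (D.res m) (fun _ => vk q i h.choose x) 0 else none) = _
    rw [dif_pos h, e]
  obtain ⟨t, d, ht, ht', hta, hd, hd1, hWt⟩ := Loc.pigeonN hϖ0 hπ1 (D.res m) (D.res_zero m)
    hdense hfin hn0 hJc W a0
  rw [ha0] at hta
  have hπp : 0 < ‖ϖ‖ := norm_pos_iff.2 hϖ0
  have hrd : D.res m d = 0 := (D.res_zero m d).2 (hd1.trans_lt hπ1)
  have hta' : D.res m (t + d) = a := by rw [map_add, hrd, add_zero, hta]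
  refine ⟨t, hta, ?_, fun φ hφ1 hφ2 => ?_⟩
  · obtain ⟨b, hb0⟩ := IsAlgClosed.exists_root Pa (by
      intro h
      have := natDegree_eq_zero_iff_degree_le_zero.2 h.le
      omega)
    have hb1 : ea b (mp D.r f) = 0 := by
      rw [← hPab]
      exact hb0
    obtain ⟨φ, h1, h2, -⟩ := hexi ht hta b hb1
    exact ⟨φ, h1, h2⟩
  -- the point
  have hs1 : ‖φ C.α‖ ≤ 1 := root_int D m hfm (t := t) (by
    have h4 := C.emb_root φ hφ1
    rw [hφ2, ← hf] at h4
    exact h4)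
  let s : ball1 i.Lv := ⟨φ C.α, hs1⟩
  have hs : ev2 (D.psi m) t s f = 0 := hroot hφ1 hφ2 rfl
  have hb0 : ea (D.res m s) (mp D.r f) = 0 := hrootb hta hs
  obtain ⟨hb1, hb2, hbA, hbH, hbA3, hbH3⟩ := hb _ hb0
  let b : J := ⟨D.res m s, hJ' _ hb0⟩
  have hOv : Ov t b φ := ⟨hφ1, hφ2, s, rfl, rfl⟩
  obtain ⟨φ', hφ'⟩ := hexi ht' hta' b hb0
  obtain ⟨hφ1', hφ2', s', hφ3', hss'⟩ := id hφ'
  have hs' : ev2 (D.psi m) (t + d) s' f = 0 := hroot hφ1' hφ2' hφ3'
  have hrs : rs (D.res m) (fun _ => vk q i φ x) 0 = rs (D.res m) (fun _ => vk q i φ' x) 0 := by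
    rw [← hW hta hOv, ← hW hta' hφ', hWt]
  refine ⟨s, rfl, hb0, ?_⟩
  -- residues of the values
  have rv : ∀ P : D.B[X][X], D.res m (ev2 (D.psi m) t s P) = ea (D.res m s) (mp D.r P) := by
    intro P
    rw [res_ev2, hta]
  have rv' : ∀ P : D.B[X][X], D.res m (ev2 (D.psi m) (t + d) s' P) =
      ea (D.res m s) (mp D.r P) := by
    intro P
    rw [res_ev2, hta', hss']
  -- the derivative
  set w : ball1 i.Lv := ev2 (D.psi m) t s (derivative f) with hw
  have hw1 : D.res m w ≠ 0 := by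
    rw [hw, rv, hdf]
    exact hb2
  have hwn : ‖(w : i.Lv)‖ = 1 := norm_one_of (D.res m) (D.res_zero m) hw1
  have hw0 : (w : i.Lv) ≠ 0 := by
    intro h
    rw [h, norm_zero] at hwn
    exact zero_ne_one hwn
  let wi : ball1 i.Lv := ⟨(w : i.Lv)⁻¹, by
    change ‖(w : i.Lv)⁻¹‖ ≤ 1
    rw [norm_inv, hwn, inv_one]⟩
  have hwi : wi * w = 1 := Subtype.ext (inv_mul_cancel₀ hw0)
  have hwir : D.res m wi * D.res m w = 1 := by rw [← map_mul, hwi, map_one]
  have hexp : ∀ P : D.B[X][X], ‖((ev2 (D.psi m) (t + d) s' P : ball1 i.Lv) : i.Lv) -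
      (ev2 (D.psi m) t s P : ball1 i.Lv) -
      ((ev2 (D.psi m) t s (del f P) * wi : ball1 i.Lv) : i.Lv) * d‖ ≤ ‖(d : i.Lv)‖ ^ 2 := by
    intro P
    have h1 := expand2 D m hEXP f P (t := t) (d := d) hs hs' hss'
      (by rw [hta, hdf]; exact hb2)
    have e : ((ev2 (D.psi m) (t + d) s' P : ball1 i.Lv) : i.Lv) -
        (ev2 (D.psi m) t s P : ball1 i.Lv) -
        ((ev2 (D.psi m) t s (del f P) * wi : ball1 i.Lv) : i.Lv) * d =
        (((((ev2 (D.psi m) (t + d) s' P - ev2 (D.psi m) t s P) * w -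
          ev2 (D.psi m) t s (del f P) * d : ball1 i.Lv)) : i.Lv)) * (w : i.Lv)⁻¹ := by
      have e1 : ((wi : ball1 i.Lv) : i.Lv) = (w : i.Lv)⁻¹ := rfl
      push_cast
      rw [e1]
      field_simp
    rw [e, norm_mul, norm_inv, hwn, inv_one, mul_one]
    exact h1
  -- the classes
  have cls : ∀ {ψ : k →+* i.Lv} {t1 s1 : ball1 i.Lv}, ψ.comp C.c = i.φ → ψ C.T = (t1 : i.Lv) →
      ψ C.α = (s1 : i.Lv) → ∀ {N : ℕ}, 0 < N → ∀ {γ0 : K} {P : D.B[X][X]} {y : F0},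
      ClsC C N (Polynomial.C (Polynomial.C γ0) * mp D.B.subtype P) y → ∀ {u : i.Lv},
      (q (pl i ψ)).val y u →
      ∃ γ : i.Lv, u = i.φ γ0 * (ev2 (D.psi m) t1 s1 P : ball1 i.Lv) * γ ^ N := by
    intro ψ t1 s1 h1 h2 h3 N hN γ0 P y hcl u hu
    obtain ⟨γ, hγ⟩ := clsC_val q C h1 hN hcl hu
    refine ⟨γ, ?_⟩
    rw [hγ, map_mul, ev2_CC, h2, h3, ev2_psi]
  have cls1 : ∀ {ψ : k →+* i.Lv} {t1 s1 : ball1 i.Lv}, ψ.comp C.c = i.φ → ψ C.T = (t1 : i.Lv) →
      ψ C.α = (s1 : i.Lv) → ∀ {N : ℕ}, 0 < N → ∀ {P : D.B[X][X]} {y : F0},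
      ClsC C N (mp D.B.subtype P) y → ∀ {u : i.Lv}, (q (pl i ψ)).val y u →
      ∃ γ : i.Lv, u = (ev2 (D.psi m) t1 s1 P : ball1 i.Lv) * γ ^ N := by
    intro ψ t1 s1 h1 h2 h3 N hN P y hcl u hu
    obtain ⟨γ, hγ⟩ := clsC_val q C h1 hN hcl hu
    refine ⟨γ, ?_⟩
    rw [hγ, h2, h3, ev2_psi]
  have hαi : i.φ α ≠ 0 := (_root_.map_ne_zero _).2 hα
  by_cases hcase : ∃ u : ball1 i.Lv, vk q i φ x = some (u : i.Lv)
  · obtain ⟨u, hu⟩ := hcase
    rw [rs_some (D.res m) (V := fun _ => vk q i φ x) (t := 0) hu] at hrs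
    obtain ⟨u', hu'⟩ : ∃ u' : ball1 i.Lv, vk q i φ' x = some (u' : i.Lv) := by
      by_contra hcon
      rw [rs_none (D.res m) (V := fun _ => vk q i φ' x) (t := 0)
        (fun u' h => hcon ⟨u', h⟩)] at hrs
      exact absurd hrs (by simp)
    rw [rs_some (D.res m) (V := fun _ => vk q i φ' x) (t := 0) hu', Option.some.injEq] at hrs
    replace hrs : D.res m u = D.res m u' := congrArg Subtype.val hrs
    have vu := (vk_some q).1 hu
    have vu' := (vk_some q).1 hu'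
    left
    refine ⟨u, vu, ?_⟩
    have h1 := Loc.same_res hϖ0 hπ1 hπ hp hpL (D.res m) (D.res_zero m) (u := u) (u' := u')
      (d := d) (α := i.φ α) (β := i.φ β) (A0 := ev2 (D.psi m) t s A)
      (A1 := ev2 (D.psi m) (t + d) s' A) (DA := ev2 (D.psi m) t s (del f A) * wi)
      (H0 := ev2 (D.psi m) t s H)
      (H1 := ev2 (D.psi m) (t + d) s' H) (DH := ev2 (D.psi m) t s (del f H) * wi)
      (A3 := ev2 (D.psi m) t s A3) (A3' := ev2 (D.psi m) (t + d) s' A3)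
      (H3 := ev2 (D.psi m) t s H3) (H3' := ev2 (D.psi m) (t + d) s' H3) (M := 2 * n) hd hd1
      (by rw [rv]; exact hbA) (by rw [rv, rv']) (by rw [rv]; exact hbH) (by rw [rv, rv'])
      (by rw [rv]; exact hbA3) (by rw [rv']; exact hbA3) (by rw [rv]; exact hbH3)
      (by rw [rv']; exact hbH3) (hexp A) (hexp H) hrs
      (fun _ => cls hφ1 hφ2 rfl hpN hA vu) (fun _ => cls hφ1' hφ2' hφ3' hpN hA vu')
      (cls1 hφ1 hφ2 rfl (Nat.succ_pos _) hA3 vu) (cls1 hφ1' hφ2' hφ3' (Nat.succ_pos _) hA3 vu')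
      (fun _ => cls hφ1 hφ2 rfl hpN hH (vu.sub Plc.val_one))
      (fun _ => cls hφ1' hφ2' hφ3' hpN hH (vu'.sub Plc.val_one))
      (cls1 hφ1 hφ2 rfl (Nat.succ_pos _) hH3 (vu.sub Plc.val_one))
      (cls1 hφ1' hφ2' hφ3' (Nat.succ_pos _) hH3 (vu'.sub Plc.val_one))
    rw [map_mul, map_mul, rv, rv, rv, rv] at h1
    rw [del_mp, del_mp]
    have h2 : D.res m w * (D.res m u * (ea (D.res m s) (mp D.r (del f A)) * D.res m wi) *
        ea (D.res m s) (mp D.r H)) = D.res m w * ((D.res m u - 1) *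
        (ea (D.res m s) (mp D.r (del f H)) * D.res m wi) * ea (D.res m s) (mp D.r A)) := by
      rw [h1]
    change D.res m u * ea (D.res m s) (mp D.r (del f A)) * ea (D.res m s) (mp D.r H) =
      (D.res m u - 1) * ea (D.res m s) (mp D.r (del f H)) * ea (D.res m s) (mp D.r A)
    linear_combination h2 - (D.res m u * ea (D.res m s) (mp D.r (del f A)) *
      ea (D.res m s) (mp D.r H) - (D.res m u - 1) * ea (D.res m s) (mp D.r (del f H)) *
      ea (D.res m s) (mp D.r A)) * hwir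
  · have hn1 : ∀ u : ball1 i.Lv, vk q i φ x ≠ some (u : i.Lv) := fun u h => hcase ⟨u, h⟩
    rw [rs_none (D.res m) (V := fun _ => vk q i φ x) (t := 0) hn1] at hrs
    have hn1' : ∀ u : ball1 i.Lv, vk q i φ' x ≠ some (u : i.Lv) := by
      intro u h
      rw [rs_some (D.res m) (V := fun _ => vk q i φ' x) (t := 0) h] at hrs
      exact absurd hrs (by simp)
    -- the quotient `(u - 1) / u`
    have quot : ∀ {ψ : k →+* i.Lv} {t1 s1 : ball1 i.Lv}, ψ.comp C.c = i.φ →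
        ψ C.T = (t1 : i.Lv) → ψ C.α = (s1 : i.Lv) → D.res m (ev2 (D.psi m) t1 s1 A3) ≠ 0 →
        (∀ u : ball1 i.Lv, vk q i ψ x ≠ some (u : i.Lv)) →
        ((x ∉ (q (pl i ψ)).W ∨ ∃ u : i.Lv, (q (pl i ψ)).val x u ∧ 1 < ‖u‖) ∧
          ∃ ρ : ball1 i.Lv, ‖(ρ : i.Lv) - 1‖ ≤ ‖ϖ‖ ^ (2 * n + 1) ∧ ∃ γ : i.Lv,
            (ρ : i.Lv) * (i.φ α * (ev2 (D.psi m) t1 s1 A : ball1 i.Lv)) =
              i.φ β * (ev2 (D.psi m) t1 s1 H : ball1 i.Lv) * γ ^ D.p ^ (2 * n)) := by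
      intro ψ t1 s1 h1 h2 h3 hx3 hxn
      by_cases hxW : x ∈ (q (pl i ψ)).W
      · set u : i.Lv := (q (pl i ψ)).ρ ⟨x, hxW⟩ with hu
        have vu : (q (pl i ψ)).val x u := ⟨hxW, rfl⟩
        have hu1 : 1 < ‖u‖ := by
          by_contra hcon
          push Not at hcon
          exact hxn ⟨u, hcon⟩ ((vk_some q).2 vu)
        have hu0 : u ≠ 0 := by
          intro h
          rw [h, norm_zero] at hu1
          linarith
        obtain ⟨γ3, hγ3⟩ := cls1 h1 h2 h3 (Nat.succ_pos _) hA3 vu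
        have hinv := Loc.pow_large hϖ0 hπ1 hπ (norm_one_of (D.res m) (D.res_zero m) hx3) hγ3 hu1
        have hinv1 : ‖u⁻¹‖ ≤ 1 := hinv.trans (pow_le_one₀ hπp.le hπ1.le)
        have hρ1 : ‖1 - u⁻¹‖ ≤ 1 := sub2 norm_one.le hinv1
        refine ⟨Or.inr ⟨u, vu, hu1⟩, ⟨1 - u⁻¹, hρ1⟩, ?_, ?_⟩
        · have e : (1 - u⁻¹ : i.Lv) - 1 = -u⁻¹ := by ring
          change ‖(1 - u⁻¹ : i.Lv) - 1‖ ≤ _
          rw [e, norm_neg]
          exact hinv
        · obtain ⟨γ, hγ⟩ := cls h1 h2 h3 hpN hA vu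
          obtain ⟨γ', hγ1⟩ := cls h1 h2 h3 hpN hH (vu.sub Plc.val_one)
          have hγ' : (u - 1 : i.Lv) = i.φ β * (ev2 (D.psi m) t1 s1 H : ball1 i.Lv) *
              γ' ^ D.p ^ (2 * n) := hγ1
          have hγ0 : γ ≠ 0 := by
            rintro rfl
            rw [zero_pow hpN.ne', mul_zero] at hγ
            exact hu0 hγ
          refine ⟨γ' / γ, ?_⟩
          change (1 - u⁻¹ : i.Lv) * _ = _
          have e1 : (1 - u⁻¹ : i.Lv) = (u - 1) / u := by field_simp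
          have h4 : γ ^ D.p ^ (2 * n) ≠ 0 := pow_ne_zero _ hγ0
          rw [e1, hγ', div_pow, div_mul_eq_mul_div, mul_div_assoc', div_eq_div_iff hu0 h4]
          calc i.φ β * (ev2 (D.psi m) t1 s1 H : ball1 i.Lv) * γ' ^ D.p ^ (2 * n) *
                (i.φ α * (ev2 (D.psi m) t1 s1 A : ball1 i.Lv)) * γ ^ D.p ^ (2 * n) =
                i.φ β * (ev2 (D.psi m) t1 s1 H : ball1 i.Lv) * γ' ^ D.p ^ (2 * n) *
                  (i.φ α * (ev2 (D.psi m) t1 s1 A : ball1 i.Lv) * γ ^ D.p ^ (2 * n)) := by ring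
            _ = _ := by rw [← hγ]
      · refine ⟨Or.inl hxW, 1, ?_, ?_⟩
        · have e1 : ((1 : ball1 i.Lv) : i.Lv) = 1 := rfl
          rw [e1, sub_self, norm_zero]
          positivity
        · obtain ⟨γ, hγ⟩ := clsC_inf q C h1 hpN hA hH hxW
          refine ⟨γ, ?_⟩
          have e1 : ((1 : ball1 i.Lv) : i.Lv) = 1 := rfl
          rw [map_mul, map_mul, ev2_CC, ev2_CC, h2, h3, ← ev2_psi, ← ev2_psi] at hγ
          rw [e1, one_mul]
          exact hγ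
    obtain ⟨hcase1, ρ, hρ, hc⟩ := quot hφ1 hφ2 rfl (by rw [rv]; exact hbA3) hn1
    obtain ⟨-, ρ', hρ', hc'⟩ := quot hφ1' hφ2' hφ3' (by rw [rv']; exact hbA3) hn1'
    right
    refine ⟨hcase1, ?_⟩
    have h1 := Loc.same_inf hϖ0 hπ1 hπ hp hpL (D.res m) (D.res_zero m) (ρ := ρ) (ρ' := ρ')
      (d := d) (α := i.φ α) (β := i.φ β) (A0 := ev2 (D.psi m) t s A)
      (A1 := ev2 (D.psi m) (t + d) s' A) (DA := ev2 (D.psi m) t s (del f A) * wi)
      (H0 := ev2 (D.psi m) t s H)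
      (H1 := ev2 (D.psi m) (t + d) s' H) (DH := ev2 (D.psi m) t s (del f H) * wi)
      (M := 2 * n) hd hd1 (by rw [rv]; exact hbA) (by rw [rv, rv']) (by rw [rv]; exact hbH)
      (by rw [rv, rv']) (hexp A) (hexp H) hρ hρ' hc hc' hαi
    rw [map_mul, map_mul, rv, rv, rv, rv] at h1
    rw [del_mp, del_mp]
    have h2 : D.res m w * (ea (D.res m s) (mp D.r (del f A)) * D.res m wi *
        ea (D.res m s) (mp D.r H)) = D.res m w *
        (ea (D.res m s) (mp D.r (del f H)) * D.res m wi * ea (D.res m s) (mp D.r A)) := by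
      rw [h1]
    change ea (D.res m s) (mp D.r (del f A)) * ea (D.res m s) (mp D.r H) =
      ea (D.res m s) (mp D.r (del f H)) * ea (D.res m s) (mp D.r A)
    linear_combination h2 - (ea (D.res m s) (mp D.r (del f A)) *
      ea (D.res m s) (mp D.r H) - ea (D.res m s) (mp D.r (del f H)) *
      ea (D.res m s) (mp D.r A)) * hwir

end Pool.Agent.Helper39.FX
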