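import Pool.Agent.Helper39.FX.Pig

/-!
# Polynomials in two variables, and values
-/

set_option autoImplicit false
set_option linter.unusedSectionVars false

open Polynomial IsDedekindDomain NumberField

namespace Pool.Agent.Helper39.FX

open Pool.Agent.TH954 Pool.Agent.Y791.BF Pool.Agent.Helper39.FT

section two

variable {R R' L L' : Type} [CommRing R] [CommRing R'] [CommRing L] [CommRing L']

lemma ev2_C (ι : R →+* L) (t s : L) (a : R[X]) : ev2 ι t s (C a) = eval₂ ι t a := by
  unfold ev2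
  rw [coe_eval₂RingHom, eval₂_C]
  rfl

lemma ev2_X (ι : R →+* L) (t s : L) : ev2 ι t s X = s := by
  unfold ev2
  rw [coe_eval₂RingHom, eval₂_X]

lemma ev2_CX (ι : R →+* L) (t s : L) : ev2 ι t s (C X) = t := by
  rw [ev2_C, eval₂_X]

lemma ev2_CC (ι : R →+* L) (t s : L) (c : R) : ev2 ι t s (C (C c)) = ι c := by
  rw [ev2_C, eval₂_C]

lemma map_ev2 (ψ : L →+* L') (ι : R →+* L) (t s : L) (A : R[X][X]) :
    ψ (ev2 ι t s A) = ev2 (ψ.comp ι) (ψ t) (ψ s) A := by
  unfold ev2
  rw [coe_eval₂RingHom, coe_eval₂RingHom, hom_eval₂]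
  congr 1
  apply RingHom.ext
  intro a
  rw [RingHom.comp_apply, coe_eval₂RingHom, coe_eval₂RingHom, hom_eval₂]

lemma ev2_mp (φ : R →+* R') (ι : R' →+* L) (t s : L) (A : R[X][X]) :
    ev2 ι t s (mp φ A) = ev2 (ι.comp φ) t s A := by
  unfold ev2 mp
  rw [coe_eval₂RingHom, coe_eval₂RingHom, eval₂_map]
  congr 1
  apply RingHom.ext
  intro a
  rw [RingHom.comp_apply, coe_eval₂RingHom, coe_mapRingHom, eval₂_map]
  rfl

lemma ev2_eval (ι : R →+* L) (t s : L) (A : R[X][X]) :
    ev2 ι t s A = (A.map (eval₂RingHom ι t)).eval s := by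
  unfold ev2
  rw [coe_eval₂RingHom, eval_map]

lemma dT_add (A B : R[X][X]) : dT (A + B) = dT A + dT B := by
  unfold dT
  rw [map_add, derivative_add, map_add]

lemma dT_mul (A B : R[X][X]) : dT (A * B) = dT A * B + A * dT B := by
  unfold dT
  rw [map_mul, derivative_mul, map_add, map_mul, map_mul, Bivariate.swap_swap_apply,
    Bivariate.swap_swap_apply]

lemma dT_C (a : R[X]) : dT (C a) = C (derivative a) := by
  unfold dT
  rw [Bivariate.swap_C, derivative_map, Bivariate.swap_map_C]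

lemma dT_X : dT (X : R[X][X]) = 0 := by
  unfold dT
  rw [Bivariate.swap_Y, derivative_C, map_zero]

lemma dT_pow_X (n : ℕ) : dT ((X : R[X][X]) ^ n) = 0 := by
  induction n with
  | zero =>
    rw [pow_zero, ← C_1, dT_C, derivative_one, C_0]
  | succ n ih => rw [pow_succ, dT_mul, ih, dT_X, zero_mul, mul_zero, add_zero]

lemma dT_mp (φ : R →+* R') (A : R[X][X]) : dT (mp φ A) = mp φ (dT A) := by
  induction A using Polynomial.induction_on' with
  | add p q hp hq =>
    have e : mp φ (p + q) = mp φ p + mp φ q := Polynomial.map_add _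
    have e2 : mp φ (dT p + dT q) = mp φ (dT p) + mp φ (dT q) := Polynomial.map_add _
    rw [e, dT_add, dT_add, e2, hp, hq]
  | monomial n a =>
    rw [← C_mul_X_pow_eq_monomial, dT_mul, dT_pow_X, mul_zero, add_zero, dT_C]
    have e : mp φ (C a * X ^ n) = C (a.map φ) * X ^ n := by
      simp only [mp, Polynomial.map_mul, Polynomial.map_pow, map_X, map_C, coe_mapRingHom]
    have e2 : mp φ (C (derivative a) * X ^ n) = C ((derivative a).map φ) * X ^ n := by
      simp only [mp, Polynomial.map_mul, Polynomial.map_pow, map_X, map_C, coe_mapRingHom]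
    rw [e, e2, dT_mul, dT_pow_X, mul_zero, add_zero, dT_C, derivative_map]

lemma del_mp (φ : R →+* R') (f A : R[X][X]) : del (mp φ f) (mp φ A) = mp φ (del f A) := by
  unfold del
  rw [dT_mp, dT_mp]
  simp only [mp, derivative_map, Polynomial.map_sub, Polynomial.map_mul]

lemma del_mul (f A B : R[X][X]) : del f (A * B) = del f A * B + A * del f B := by
  unfold del
  rw [dT_mul, derivative_mul]
  ring

lemma del_sub (f A B : R[X][X]) : del f (A - B) = del f A - del f B := by
  unfold del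
  have h : dT (A - B) = dT A - dT B := by
    unfold dT
    rw [map_sub, derivative_sub, map_sub]
  rw [h, derivative_sub]
  ring

lemma del_CX (f : R[X][X]) : del f (C X) = derivative f := by
  unfold del
  rw [dT_C, derivative_X, derivative_C, C_1, one_mul, zero_mul, sub_zero]

lemma del_self (f : R[X][X]) : del f f = 0 := by
  unfold del
  ring

end two

section val

variable {k F0 L : Type} [Field k] [Field F0] [Field L] [Algebra k F0] [Algebra k L]
  (Q : Plc k F0 L)

/-- values of powers -/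
lemma kumk_val {x g : F0} {r : k} (hr : r ≠ 0) {N : ℕ} (hN : 0 < N)
    (hx : x = algebraMap k F0 r * g ^ N) {u : L} (hu : Q.val x u) :
    ∃ γ : L, u = algebraMap k L r * γ ^ N := by
  have hrF : algebraMap k F0 r ≠ 0 := (_root_.map_ne_zero _).2 hr
  have hrL : algebraMap k L r ≠ 0 := (_root_.map_ne_zero _).2 hr
  have h1 : Q.val (algebraMap k F0 r) (algebraMap k L r) := Plc.val_alg (pl := Q) r
  have h2 := hu.mul (h1.inv hrL)
  have e : x * (algebraMap k F0 r)⁻¹ = g ^ N := by
    rw [hx, mul_comm, ← mul_assoc, inv_mul_cancel₀ hrF, one_mul]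
  rw [e] at h2
  obtain ⟨γ, hγ⟩ := Plc.val_of_mem (Plc.mem_of_pow_mem hN h2.mem)
  refine ⟨γ, ?_⟩
  have h3 := (hγ.pow N).unique h2
  rw [h3, mul_comm, mul_assoc, inv_mul_cancel₀ hrL, mul_one]

/-- infinite values -/
lemma kumk_inf {x g h : F0} {r r' : k} (hr : r ≠ 0) (hr' : r' ≠ 0) {N : ℕ} (hN : 0 < N)
    (hx : x = algebraMap k F0 r * g ^ N) (hx1 : x - 1 = algebraMap k F0 r' * h ^ N)
    (hn : x ∉ Q.W) : ∃ γ : L, algebraMap k L r = algebraMap k L r' * γ ^ N := by
  have hx0 : x ≠ 0 := by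
    rintro rfl
    exact hn (zero_mem _)
  have hg0 : g ^ N ≠ 0 := by
    intro h1
    rw [h1, mul_zero] at hx
    exact hx0 hx
  have v0 : Q.val x⁻¹ 0 := Plc.val_inv_of_notMem hn
  have v1 : Q.val ((x - 1) * x⁻¹) 1 := by
    have h1 := (Plc.val_one (pl := Q)).sub v0
    rw [sub_zero] at h1
    have e : (x - 1) * x⁻¹ = 1 - x⁻¹ := by
      rw [sub_mul, mul_inv_cancel₀ hx0, one_mul]
    rw [e]
    exact h1
  have v2 := v1.mul (Plc.val_alg (pl := Q) r)
  rw [one_mul] at v2
  have e2 : (x - 1) * x⁻¹ * algebraMap k F0 r = algebraMap k F0 r' * (h / g) ^ N := by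
    rw [hx1, div_pow]
    have e3 : x⁻¹ * algebraMap k F0 r = (g ^ N)⁻¹ := by
      have h3 : algebraMap k F0 r ≠ 0 := (_root_.map_ne_zero _).2 hr
      rw [hx, mul_inv, mul_right_comm, inv_mul_cancel₀ h3, one_mul]
    rw [mul_assoc, e3, div_eq_mul_inv, mul_assoc]
  exact kumk_val Q hr' hN e2 v2

end val

section crv

variable {K k : Type} [Field K] [Field k] (C : Crv K k)

/-- an embedding is determined by the point -/
lemma Crv.emb_ext {L : Type} [Field L] {φ ψ : k →+* L} (h1 : φ.comp C.c = ψ.comp C.c)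
    (h2 : φ C.T = ψ C.T) (h3 : φ C.α = ψ C.α) : φ = ψ := by
  apply RingHom.ext
  intro x
  obtain ⟨A, d, hd, e⟩ := C.gen x
  have hd0 : eval₂ C.c C.T d ≠ 0 := by
    intro h
    have h4 := C.min (Polynomial.C d) (by rw [ev2_C]; exact h)
    have h5 : (Polynomial.C d : K[X][X]) = 0 := by
      by_contra h6
      have h7 := natDegree_le_of_dvd h4 h6
      rw [natDegree_C] at h7
      have := C.pos
      omega
    exact hd (C_eq_zero.1 h5)
  have e1 := congrArg φ e
  have e2 := congrArg ψ e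
  rw [map_mul, map_ev2, hom_eval₂] at e1 e2
  rw [h1, h2, h3] at e1
  have hd1 : eval₂ (ψ.comp C.c) (ψ C.T) d ≠ 0 := by
    rw [← hom_eval₂]
    exact (_root_.map_ne_zero _).2 hd0
  exact mul_right_cancel₀ hd1 (e1.trans e2.symm)

/-- the coordinates of a point satisfy the equation -/
lemma Crv.emb_root {L : Type} [Field L] (φ : k →+* L) {ι : K →+* L} (h1 : φ.comp C.c = ι) :
    ev2 ι (φ C.T) (φ C.α) C.f = 0 := by
  rw [← h1, ← map_ev2, C.root, map_zero]

/-- `T` is transcendental -/
lemma Crv.T_trans {d : K[X]} (hd : d ≠ 0) : eval₂ C.c C.T d ≠ 0 := by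
  intro h
  have h4 := C.min (Polynomial.C d) (by rw [ev2_C]; exact h)
  have h5 : (Polynomial.C d : K[X][X]) = 0 := by
    by_contra h6
    have h7 := natDegree_le_of_dvd h4 h6
    rw [natDegree_C] at h7
    have := C.pos
    omega
  exact hd (C_eq_zero.1 h5)

end crv

section psi

variable {K : Type} [Field K] (D : RSys K) (m : ℕ)

/-- values in the completion -/
lemma ev2_psi (A : D.B[X][X]) (t s : ball1 (D.i m).Lv) :
    ((ev2 (D.psi m) t s A : ball1 (D.i m).Lv) : (D.i m).Lv) =
      ev2 (D.i m).φ (t : (D.i m).Lv) (s : (D.i m).Lv) (mp D.B.subtype A) := by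
  have h1 : ((ev2 (D.psi m) t s A : ball1 (D.i m).Lv) : (D.i m).Lv) =
      (ball1 (D.i m).Lv).subtype (ev2 (D.psi m) t s A) := rfl
  rw [h1, map_ev2, ev2_mp]
  rfl

/-- residues -/
lemma res_ev2 (A : D.B[X][X]) (t s : ball1 (D.i m).Lv) :
    D.res m (ev2 (D.psi m) t s A) =
      ev2 (algebraMap (ZMod D.p) D.E) (D.res m t) (D.res m s) (mp D.r A) := by
  rw [map_ev2, ev2_mp]
  congr 2
  apply RingHom.ext
  intro c
  exact D.res_psi m c

end psi

end Pool.Agent.Helper39.FX
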